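import Pool.Agent.Q230.AD.Path

set_option autoImplicit false

/-!
# A path for an open set of inputs
-/

namespace Pool.Agent.Q230.AD

theorem Pce.val_continuous {ι : Type} {w : ℕ} (p : Pce ι w) : Continuous fun b : ι → ℝ => p.val b := by
  unfold Pce.val
  rcases p.rd with _ | i
  · exact continuous_const
  · exact continuous_apply i

theorem st_continuous {ι : Type} {w : ℕ} (p : ℕ → Pce ι w) (hp : ∀ t, Continuous (p t).g)
    (y : Fin w → ℝ) (t : ℕ) : Continuous fun b : ι → ℝ => st p b y t := by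
  induction t with
  | zero => exact continuous_const
  | succ t ih => exact (hp t).comp (ih.prodMk (p t).val_continuous)

theorem ok_closed {ι : Type} {w : ℕ} (p : ℕ → Pce ι w) (hp : ∀ t, Continuous (p t).g)
    (hF : ∀ t, IsClosed (p t).F) (y : Fin w → ℝ) (L : ℕ) : IsClosed {b : ι → ℝ | Ok p L y b} := by
  have h1 : {b : ι → ℝ | Ok p L y b} =
      ⋂ t, ⋂ (_ : t < L), (fun b => (st p b y t, (p t).val b)) ⁻¹' (p t).F := by
    ext b
    simp [Ok]
  rw [h1]
  exact isClosed_iInter fun t => isClosed_iInter fun _ =>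
    (hF t).preimage ((st_continuous p hp y t).prodMk (p t).val_continuous)

/-- **A path for an open set.** -/
theorem exists_ball {Z : Type} [TopologicalSpace Z] [BaireSpace Z] {ι : Type} {w : ℕ}
    (inp : Z → ι → ℝ) (hinp : Continuous inp) (U : Set Z) (hU : IsOpen U) (hUne : U.Nonempty)
    (𝒞 : Set ((Fin w → ℝ) × ℝ → Fin w → ℝ)) (h𝒞 : ∀ g ∈ 𝒞, Continuous g) (hfst : Prod.fst ∈ 𝒞)
    (P : ℕ → Prog ι w) (hP : ∀ n, ∀ I ∈ (P n).instrs, ∃ F g, Covered 𝒞 I F g) (R : ℕ → Prop)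
    (hacc : ∀ z ∈ U, ∃ n l, (P n).IsRun (inp z) l ∧ R (reads l)) :
    ∃ (n : ℕ) (p : ℕ → Pce ι w) (L : ℕ) (V : Set Z), IsOpen V ∧ V.Nonempty ∧ V ⊆ U ∧
      (∀ z ∈ V, Ok p L 0 (inp z)) ∧ (∀ t, (p t).g ∈ 𝒞) ∧ R (cnt p L) ∧
      ∀ b, Ok p L 0 b → ∃ l, (P n).IsRun b l := by
  have hP' : ∀ n, ∀ I : (P n).instrs, ∃ F g, Covered 𝒞 I.1 F g := fun n I => hP n I.1 I.2
  choose F g hFg using hP'
  have hcount : ∀ n, Countable (P n).instrs := fun n => (P n).countable.to_subtype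
  obtain ⟨E, hE⟩ : ∃ E : Option (Σ n, List ((P n).instrs × ℕ)) → Set Z, E = fun a =>
      match a with
      | none => Uᶜ
      | some a => {z | ((∃ b₁, (P a.1).IsRun b₁ (ins a.2)) ∧ R (reads (ins a.2))) ∧
          Ok (pth (F a.1) (g a.1) a.2) a.2.length 0 (inp z)} := ⟨_, rfl⟩
  have hmem : ∀ n l t, (pth (F n) (g n) l t).g ∈ 𝒞 ∧ IsClosed (pth (F n) (g n) l t).F :=
    fun n l t => pth_mem (F n) (g n) (hFg n) hfst l t
  have hEc : ∀ a, IsClosed (E a) := by
    intro a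
    rw [hE]
    rcases a with _ | a
    · exact hU.isClosed_compl
    · by_cases h : (∃ b₁, (P a.1).IsRun b₁ (ins a.2)) ∧ R (reads (ins a.2))
      · have h1 : IsClosed {z | Ok (pth (F a.1) (g a.1) a.2) a.2.length 0 (inp z)} :=
          (ok_closed (pth (F a.1) (g a.1) a.2) (fun t => h𝒞 _ (hmem a.1 a.2 t).1)
            (fun t => (hmem a.1 a.2 t).2) 0 a.2.length).preimage hinp
        have h2 : {z | ((∃ b₁, (P a.1).IsRun b₁ (ins a.2)) ∧ R (reads (ins a.2))) ∧
            Ok (pth (F a.1) (g a.1) a.2) a.2.length 0 (inp z)} =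
            {z | Ok (pth (F a.1) (g a.1) a.2) a.2.length 0 (inp z)} := by
          ext z
          exact ⟨fun hz => hz.2, fun hz => ⟨h, hz⟩⟩
        show IsClosed {z | _ ∧ _}
        rw [h2]
        exact h1
      · have h2 : {z | ((∃ b₁, (P a.1).IsRun b₁ (ins a.2)) ∧ R (reads (ins a.2))) ∧
            Ok (pth (F a.1) (g a.1) a.2) a.2.length 0 (inp z)} = ∅ := by
          ext z
          exact ⟨fun hz => absurd hz.1 h, fun hz => absurd hz (Set.notMem_empty z)⟩
        show IsClosed {z | _ ∧ _}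
        rw [h2]
        exact isClosed_empty
  have hEU : ⋃ a, E a = Set.univ := by
    rw [Set.eq_univ_iff_forall]
    intro z
    by_cases hz : z ∈ U
    · obtain ⟨n, l, hr, hl⟩ := hacc z hz
      obtain ⟨l', h1, h2⟩ := exists_path (F n) (g n) (hFg n) (inp z) l _ _ hr
      refine Set.mem_iUnion.2 ⟨some ⟨n, l'⟩, ?_⟩
      rw [hE]
      refine ⟨⟨⟨inp z, ?_⟩, ?_⟩, h2⟩
      · show (P n).IsRun (inp z) (ins l')
        rw [h1]
        exact hr
      · show R (reads (ins l'))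
        rw [h1]
        exact hl
    · refine Set.mem_iUnion.2 ⟨none, ?_⟩
      rw [hE]
      exact hz
  obtain ⟨z, hzU, hz⟩ := (dense_iUnion_interior_of_closed hEc hEU).inter_open_nonempty U hU hUne
  obtain ⟨a, ha⟩ := Set.mem_iUnion.1 hz
  rcases a with _ | ⟨n, l⟩
  · have h1 := interior_subset ha
    rw [hE] at h1
    exact absurd hzU h1
  · have h1 := interior_subset ha
    rw [hE] at h1
    obtain ⟨⟨⟨b₁, hb₁⟩, h2⟩, -⟩ := h1
    refine ⟨n, pth (F n) (g n) l, l.length, interior (E (some ⟨n, l⟩)) ∩ U,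
      isOpen_interior.inter hU, ⟨z, ha, hzU⟩, Set.inter_subset_right, ?_, fun t => (hmem n l t).1,
      ?_, ?_⟩
    · intro z' hz'
      have h3 := interior_subset hz'.1
      rw [hE] at h3
      exact h3.2
    · rw [cnt_pth]
      exact h2
    · intro b hb
      exact ⟨ins l, run_of_path (F n) (g n) (hFg n) b b₁ l _ _ _ hb₁ hb⟩

end Pool.Agent.Q230.AD
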