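import Pool.Agent.Q230.AD.Model

set_option autoImplicit false

/-!
# Systems of inequalities in general position
-/

open Finset Matrix

namespace Pool.Agent.Q230.AD

variable {p n : ℕ} {A : Matrix (Fin p) (Fin n) ℝ}

theorem n_le_p (hb : BoundedSolutions A) : n ≤ p := by
  by_contra hcon
  push Not at hcon
  have h1 : LinearMap.ker A.mulVecLin ≠ ⊥ := by
    apply LinearMap.ker_ne_bot_of_finrank_lt
    rw [Module.finrank_fin_fun, Module.finrank_fin_fun]
    exact hcon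
  obtain ⟨v, hv, hv0⟩ := (Submodule.ne_bot_iff _).1 h1
  rw [LinearMap.mem_ker] at hv
  apply hv0
  apply hb
  rw [mulVecLin_apply] at hv
  rw [hv]

/-- **Sections.** A solution of at most `n` equations, linear in the right-hand side. -/
theorem exists_chi (hg : GeneralPosition A) (hnp : n ≤ p) (I : Finset (Fin p)) (hI : I.card ≤ n) :
    ∃ χ : (Fin p → ℝ) →ₗ[ℝ] (Fin n → ℝ), (∀ d, ∀ i ∈ I, (A *ᵥ χ d) i = d i) ∧
      ∀ x, χ (A *ᵥ x) = x := by
  obtain ⟨B, hIB, -, hB⟩ := Finset.exists_subsuperset_card_eq (Finset.subset_univ I) hI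
    (by rw [card_univ, Fintype.card_fin]; exact hnp)
  obtain ⟨s, hs, hsB⟩ : ∃ s : Fin n → Fin p, Function.Injective s ∧ ∀ i ∈ B, ∃ a, s a = i := by
    refine ⟨B.orderEmbOfFin hB, (B.orderEmbOfFin hB).injective, fun i hi => ?_⟩
    have h1 := Finset.range_orderEmbOfFin B hB
    have h2 : i ∈ Set.range (B.orderEmbOfFin hB) := by rw [h1]; exact hi
    exact h2
  obtain ⟨M, hM⟩ : ∃ M, M = A.submatrix s id := ⟨_, rfl⟩
  have hdet : IsUnit M.det := by
    rw [hM]
    exact (hg s hs).isUnit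
  have hMx : ∀ x a, (M *ᵥ x) a = (A *ᵥ x) (s a) := by
    intro x a
    rw [hM]
    rfl
  refine ⟨(M⁻¹).mulVecLin.comp (LinearMap.funLeft ℝ ℝ s), fun d i hi => ?_, fun x => ?_⟩
  · obtain ⟨a, rfl⟩ := hsB i (hIB hi)
    rw [← hMx, LinearMap.comp_apply, mulVecLin_apply, mulVec_mulVec, mul_nonsing_inv _ hdet,
      one_mulVec]
    rfl
  · rw [LinearMap.comp_apply, mulVecLin_apply]
    have h1 : (LinearMap.funLeft ℝ ℝ s) (A *ᵥ x) = M *ᵥ x := by
      funext a
      rw [hMx]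
      rfl
    rw [h1, mulVec_mulVec, nonsing_inv_mul _ hdet, one_mulVec]

theorem gp_inj (hg : GeneralPosition A) (I : Finset (Fin p)) (hI : n ≤ I.card) (x : Fin n → ℝ)
    (hx : ∀ i ∈ I, (A *ᵥ x) i = 0) : x = 0 := by
  obtain ⟨B, hB, hBc⟩ := Finset.exists_subset_card_eq hI
  have h1 : (A.submatrix (B.orderEmbOfFin hBc) id) *ᵥ x = 0 := by
    funext a
    exact hx _ (hB (B.orderEmbOfFin_mem hBc a))
  exact Matrix.eq_zero_of_mulVec_eq_zero (hg _ (B.orderEmbOfFin hBc).injective) h1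

/-- **Two opposite inputs.** -/
theorem two_sided (R : Finset (Fin p)) (hR : ∀ x : Fin n → ℝ, (∀ i ∈ R, 0 ≤ (A *ᵥ x) i) → x = 0)
    (x₀ x₁ x₂ : Fin n → ℝ) (η : Fin p → ℝ) (h1 : ∀ i ∈ R, (A *ᵥ x₀) i + η i ≤ (A *ᵥ x₁) i)
    (h2 : ∀ i ∈ R, (A *ᵥ x₀) i - η i ≤ (A *ᵥ x₂) i) : ∀ i ∈ R, η i = (A *ᵥ (x₁ - x₀)) i := by
  have h3 : x₁ + x₂ - x₀ - x₀ = 0 := by
    apply hR
    intro i hi
    rw [mulVec_sub, mulVec_sub, mulVec_add]
    simp only [Pi.sub_apply, Pi.add_apply]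
    have := h1 i hi
    have := h2 i hi
    linarith
  intro i hi
  have h4 : x₂ = x₀ + x₀ - x₁ := by
    have h5 : x₂ = (x₁ + x₂ - x₀ - x₀) + (x₀ + x₀ - x₁) := by abel
    rw [h5, h3, zero_add]
  have h5 := h1 i hi
  have h6 := h2 i hi
  rw [h4, mulVec_sub, mulVec_add] at h6
  rw [mulVec_sub]
  simp only [Pi.sub_apply, Pi.add_apply] at h6 ⊢
  linarith

/-- **`n + 1` rows.** -/
theorem exists_rows (hg : GeneralPosition A) (hb : BoundedSolutions A) :
    ∃ R : Finset (Fin p), R.card ≤ n + 1 ∧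
      ∀ x : Fin n → ℝ, (∀ i ∈ R, 0 ≤ (A *ᵥ x) i) → x = 0 := by
  classical
  rcases Nat.eq_zero_or_pos n with hn | hn
  · subst hn
    exact ⟨∅, by simp, fun x _ => Subsingleton.elim _ _⟩
  have hnp := n_le_p hb
  have hp : 0 < p := by omega
  have h0 : (0 : Fin n → ℝ) ∈ convexHull ℝ (Set.range A) := by
    by_contra hcon
    have hc : IsClosed (convexHull ℝ (Set.range A)) :=
      ((Set.finite_range A).isCompact_convexHull (𝕜 := ℝ)).isClosed
    obtain ⟨f, u, h1, h2⟩ := geometric_hahn_banach_point_closed (convex_convexHull ℝ _) hc hcon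
    rw [map_zero] at h1
    have h3 : ∀ i, 0 < f (A i) := fun i =>
      h1.trans (h2 _ (subset_convexHull ℝ _ ⟨i, rfl⟩))
    obtain ⟨v, hv⟩ : ∃ v : Fin n → ℝ, v = fun j => f (Pi.single j 1) := ⟨_, rfl⟩
    have hfv : ∀ z : Fin n → ℝ, f z = z ⬝ᵥ v := by
      intro z
      have h4 : z = ∑ j, z j • (Pi.single j (1 : ℝ) : Fin n → ℝ) := by
        funext i
        simp [Finset.sum_apply, Pi.single_apply]
      conv_lhs => rw [h4]
      rw [map_sum, dotProduct]
      refine Finset.sum_congr rfl fun j _ => ?_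
      rw [map_smul, hv, smul_eq_mul]
    have h5 : v = 0 := by
      apply hb
      intro i
      show 0 ≤ A i ⬝ᵥ v
      rw [← hfv]
      exact (h3 i).le
    have h6 := h3 ⟨0, hp⟩
    rw [hfv, h5, dotProduct_zero] at h6
    exact lt_irrefl _ h6
  obtain ⟨ι, _, z, w, hz, haff, hw, hw1, hw0⟩ := eq_pos_convex_span_of_mem_convexHull (𝕜 := ℝ) h0
  have hσ : ∀ i, ∃ a, A a = z i := fun i => hz ⟨i, rfl⟩
  choose σ hσ using hσ
  have hσi : Function.Injective σ := by
    intro i j hij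
    apply haff.injective
    rw [← hσ i, ← hσ j, hij]
  have hcard : Fintype.card ι ≤ n + 1 := by
    have h1 := haff.card_le_finrank_succ
    have h2 : Module.finrank ℝ (vectorSpan ℝ (Set.range z)) ≤ n := by
      have := Submodule.finrank_le (vectorSpan ℝ (Set.range z))
      rwa [Module.finrank_fin_fun] at this
    omega
  have himg : (univ.image σ).card = Fintype.card ι := by
    rw [Finset.card_image_of_injective _ hσi, card_univ]
  have hsum : ∀ x : Fin n → ℝ, ∑ i, w i * (A *ᵥ x) (σ i) = 0 := by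
    intro x
    have h1 : ∑ i, w i * (A *ᵥ x) (σ i) = (∑ i, w i • z i) ⬝ᵥ x := by
      rw [sum_dotProduct]
      refine Finset.sum_congr rfl fun i _ => ?_
      rw [smul_dotProduct, smul_eq_mul, ← hσ i]
      rfl
    rw [h1, hw0, zero_dotProduct]
  have hgt : n < Fintype.card ι := by
    by_contra hcon
    push Not at hcon
    obtain ⟨χ, hχ, -⟩ := exists_chi hg hnp (univ.image σ) (by rw [himg]; exact hcon)
    have h1 := hsum (χ fun _ => 1)
    have h2 : ∀ i, (A *ᵥ (χ fun _ => 1)) (σ i) = 1 := fun i =>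
      hχ _ _ (mem_image.2 ⟨i, mem_univ _, rfl⟩)
    simp only [h2, mul_one, hw1] at h1
    exact one_ne_zero h1
  refine ⟨univ.image σ, by rw [himg]; exact hcard, fun x hx => ?_⟩
  refine gp_inj hg (univ.image σ) (by rw [himg]; exact hgt.le) x fun i hi => ?_
  obtain ⟨a, -, rfl⟩ := mem_image.1 hi
  have h1 := hsum x
  have h2 : ∀ i ∈ univ, 0 ≤ w i * (A *ᵥ x) (σ i) := fun i _ =>
    mul_nonneg (hw i).le (hx _ (mem_image.2 ⟨i, mem_univ _, rfl⟩))
  have h3 := (Finset.sum_eq_zero_iff_of_nonneg h2).1 h1 a (mem_univ _)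
  exact (mul_eq_zero.1 h3).resolve_left (hw a).ne'

end Pool.Agent.Q230.AD
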