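import Pool.Agent.Q230.AD.Seg
import Pool.Agent.Q230.AD.Ball
import Pool.Agent.Q230.AD.Lp
import Pool.Agent.H370R3.SphereTools

set_option autoImplicit false

/-!
# Continuous paths: the bound by the Borsuk-Ulam theorem
-/

open Finset Matrix

namespace Pool.Agent.Q230.AD

variable {p n : ℕ} (A : Matrix (Fin p) (Fin n) ℝ)

/-- The input with the right-hand sides `A x` in `R` and `- K` outside. -/
noncomputable def inp (R : Finset (Fin p)) (K : ℝ) (x : Fin n → ℝ) : Fin p → ℝ :=
  fun i => if i ∈ R then (A *ᵥ x) i else -K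

theorem inp_continuous (R : Finset (Fin p)) (K : ℝ) : Continuous (inp A R K) := by
  refine continuous_pi fun i => ?_
  unfold inp
  by_cases hi : i ∈ R
  · simp only [if_pos hi]
    exact (continuous_apply i).comp (Continuous.matrix_mulVec continuous_const continuous_id)
  · simp only [if_neg hi]
    exact continuous_const

/-- **The bound for a path.** -/
theorem fool {k r w L : ℕ} (hg : GeneralPosition A) (hnp : n ≤ p) (R : Finset (Fin p))
    (hRc : R.card = n + k) (hR : ∀ x : Fin n → ℝ, (∀ i ∈ R, 0 ≤ (A *ᵥ x) i) → x = 0)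
    (hr : 1 ≤ r) (hk : 1 ≤ k) (hkm : 2 ^ (4 * r + 2) * k ≤ n + k) (K : ℝ)
    (q : ℕ → Pce (Fin p) w) (hp : ∀ t, Continuous (q t).g)
    (hs : ∀ b, Ok q L 0 b → ∃ x, b ≤ A *ᵥ x) (hcnt : cnt q L ≤ r * (n + k))
    (V : Set (Fin n → ℝ)) (hV : IsOpen V) (hVne : V.Nonempty)
    (hVo : ∀ x ∈ V, Ok q L 0 (inp A R K x)) : k ≤ 16 * r ^ 2 * w := by
  classical
  by_contra hcon
  push Not at hcon
  obtain ⟨x₀, hx₀⟩ := hVne
  have h2pos : 0 < 2 ^ (4 * r + 2) := Nat.pow_pos (by norm_num)
  have h8r : 8 * r ≤ 2 ^ (4 * r + 2) := by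
    have h1 : r < 2 ^ r := Nat.lt_two_pow_self
    have h2 : 2 ^ (4 * r + 2) = 4 * 2 ^ r * 2 ^ (3 * r) := by
      rw [show 4 * r + 2 = 2 + r + 3 * r by ring, pow_add, pow_add]
      norm_num
    have h3 : 2 ^ 3 ≤ 2 ^ (3 * r) := Nat.pow_le_pow_right (by norm_num) (by omega)
    rw [h2]
    nlinarith
  obtain ⟨m, hm⟩ : ∃ m, m = n + k := ⟨_, rfl⟩
  rw [← hm] at hkm hcnt hRc
  have hm8 : 8 * r ≤ m := by
    calc 8 * r ≤ 2 ^ (4 * r + 2) * 1 := by omega
      _ ≤ 2 ^ (4 * r + 2) * k := Nat.mul_le_mul_left _ hk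
      _ ≤ m := hkm
  obtain ⟨c, hc⟩ : ∃ c, c = m / (8 * r) := ⟨_, rfl⟩
  have hc1 : 1 ≤ c := by
    rw [hc]
    exact Nat.div_pos hm8 (by omega)
  have hcm : 8 * r * c ≤ m := by rw [hc]; exact Nat.mul_div_le _ _
  have hcm' : m < 8 * r * c + 8 * r := by
    rw [hc]
    have := Nat.lt_mul_div_succ m (show 0 < 8 * r by omega)
    linarith
  -- the number of cuts
  obtain ⟨S, hS⟩ : ∃ S, S = cnt q L / c := ⟨_, rfl⟩
  have hSr : S ≤ 16 * r ^ 2 := by
    have h1 : S * c ≤ r * m := by
      rw [hS]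
      exact (Nat.div_mul_le_self _ _).trans hcnt
    have h2 : S * c ≤ 16 * r ^ 2 * c := by
      calc S * c ≤ r * m := h1
        _ ≤ r * (8 * r * c + 8 * r) := Nat.mul_le_mul_left _ hcm'.le
        _ ≤ r * (8 * r * c + 8 * r * c) :=
            Nat.mul_le_mul_left _ (Nat.add_le_add_left (Nat.le_mul_of_pos_right _ hc1) _)
        _ = _ := by ring
    exact Nat.le_of_mul_le_mul_right h2 hc1
  have hSw : S * w < k := lt_of_le_of_lt (Nat.mul_le_mul_right _ hSr) hcon
  obtain ⟨N, hN⟩ : ∃ N, k = N + 1 := ⟨k - 1, by omega⟩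
  -- the two sets of entries
  obtain ⟨J, X', Y', hX'R, hY'R, hX', hY', hJX, hJY⟩ := separate q R hr hc1 (by rw [hRc]; exact hcm)
    (by rw [hRc]; exact hcnt)
  rw [hRc] at hX' hY'
  have hkX : k ≤ X'.card := Nat.le_of_mul_le_mul_left (hkm.trans hX') h2pos
  have hkY : k ≤ Y'.card := Nat.le_of_mul_le_mul_left (hkm.trans hY') h2pos
  have hinR : ∀ x, ∀ i ∈ R, inp A R K x i = (A *ᵥ x) i := fun x i hi => if_pos hi
  -- each entry is read
  have hread : ∀ i ∈ R, ∃ t < L, (q t).rd = some i := by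
    intro i hi
    by_contra hcon
    push Not at hcon
    obtain ⟨x₁, hx₁⟩ := hs _ (ok_of_not_read q (inp A R K x₀)
      (Function.update (inp A R K x₀) i (inp A R K x₀ i + 1)) i (hVo x₀ hx₀) hcon
      (fun j hj => Function.update_of_ne hj _ _))
    obtain ⟨x₂, hx₂⟩ := hs _ (ok_of_not_read q (inp A R K x₀)
      (Function.update (inp A R K x₀) i (inp A R K x₀ i - 1)) i (hVo x₀ hx₀) hcon
      (fun j hj => Function.update_of_ne hj _ _))
    have h1 := two_sided (A := A) R hR x₀ x₁ x₂ (Pi.single i 1)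
      (fun j hj => by
        have h2 := hx₁ j
        by_cases hij : j = i
        · subst hij
          rw [Function.update_self, hinR _ _ hj] at h2
          rw [Pi.single_eq_same]
          exact h2
        · rw [Function.update_of_ne hij, hinR _ _ hj] at h2
          simpa [hij] using h2)
      (fun j hj => by
        have h2 := hx₂ j
        by_cases hij : j = i
        · subst hij
          rw [Function.update_self, hinR _ _ hj] at h2
          rw [Pi.single_eq_same]
          exact h2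
        · rw [Function.update_of_ne hij, hinR _ _ hj] at h2
          simpa [hij] using h2)
    have h2 : x₁ - x₀ = 0 := by
      refine gp_inj hg (R.erase i) (by rw [card_erase_of_mem hi]; omega) _ fun j hj => ?_
      rw [← h1 j (mem_of_mem_erase hj), Pi.single_eq_of_ne (ne_of_mem_erase hj)]
    have h3 := h1 i hi
    rw [h2, mulVec_zero, Pi.single_eq_same] at h3
    simp at h3
  have hdis : ∀ i ∈ X', i ∉ Y' := by
    intro i hi hi'
    obtain ⟨t, ht, hrd⟩ := hread i (hX'R hi)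
    exact hJY t ht i hi' hrd (hJX t ht i hi hrd)
  obtain ⟨X, hXX, hX⟩ := Finset.exists_subset_card_eq hkX
  obtain ⟨Y, hYY, hY⟩ := Finset.exists_subset_card_eq hkY
  have hXY : Disjoint X Y := Finset.disjoint_left.2 fun i hi hi' => hdis i (hXX hi) (hYY hi')
  have hXR : X ⊆ R := hXX.trans hX'R
  have hYR : Y ⊆ R := hYY.trans hY'R
  obtain ⟨s, hsi, hsX, hsX'⟩ : ∃ s : Fin k → Fin p, Function.Injective s ∧ (∀ a, s a ∈ X) ∧
      ∀ i ∈ X, ∃ a, s a = i := by
    refine ⟨X.orderEmbOfFin hX, (X.orderEmbOfFin hX).injective, fun a => X.orderEmbOfFin_mem hX a,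
      fun i hi => ?_⟩
    have h1 := Finset.range_orderEmbOfFin X hX
    have h2 : i ∈ Set.range (X.orderEmbOfFin hX) := by rw [h1]; exact hi
    exact h2
  -- the perturbation
  obtain ⟨χ, hχ, -⟩ := exists_chi hg hnp (R \ Y) (by
    rw [card_sdiff_of_subset hYR]
    omega)
  obtain ⟨φ, hφ⟩ : ∃ φ : (Fin k → ℝ) →ₗ[ℝ] (Fin n → ℝ),
      φ = χ.comp (Function.ExtendByZero.linearMap ℝ s) := ⟨_, rfl⟩
  have hφX : ∀ u a, (A *ᵥ φ u) (s a) = u a := by
    intro u a
    rw [hφ, LinearMap.comp_apply, hχ _ _ (mem_sdiff.2 ⟨hXR (hsX a),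
      fun h => Finset.disjoint_left.1 hXY (hsX a) h⟩), Function.ExtendByZero.linearMap_apply,
      hsi.extend_apply]
  have hφ0 : ∀ u, ∀ i ∈ R, i ∉ X → i ∉ Y → (A *ᵥ φ u) i = 0 := by
    intro u i hi hiX hiY
    rw [hφ, LinearMap.comp_apply, hχ _ _ (mem_sdiff.2 ⟨hi, hiY⟩),
      Function.ExtendByZero.linearMap_apply, Function.extend_apply']
    · rfl
    · rintro ⟨a, rfl⟩
      exact hiX (hsX a)
  -- a small sphere
  obtain ⟨ρ, hρ, hball⟩ : ∃ ρ : ℝ, 0 < ρ ∧ ∀ u : Fin k → ℝ, ‖u‖ ≤ 1 → x₀ + φ (ρ • u) ∈ V := by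
    obtain ⟨δ, hδ, hδV⟩ := Metric.isOpen_iff.1 hV x₀ hx₀
    obtain ⟨C, hC0, hC⟩ : ∃ C : ℝ, 0 < C ∧ ∀ u, ‖φ u‖ ≤ C * ‖u‖ := by
      refine ⟨‖LinearMap.toContinuousLinearMap φ‖ + 1, by positivity, fun u => ?_⟩
      have h1 := (LinearMap.toContinuousLinearMap φ).le_opNorm u
      have h2 : LinearMap.toContinuousLinearMap φ u = φ u := rfl
      rw [h2] at h1
      have h3 := norm_nonneg u
      nlinarith
    refine ⟨δ / (2 * C), by positivity, fun u hu => hδV ?_⟩
    rw [Metric.mem_ball, dist_eq_norm, add_sub_cancel_left]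
    calc ‖φ ((δ / (2 * C)) • u)‖ ≤ C * ‖(δ / (2 * C)) • u‖ := hC _
      _ = C * (δ / (2 * C) * ‖u‖) := by
          rw [norm_smul, Real.norm_of_nonneg (by positivity)]
      _ ≤ C * (δ / (2 * C) * 1) := by gcongr
      _ = δ / 2 := by field_simp
      _ < δ := by linarith
  obtain ⟨e, he⟩ : ∃ e : Pool.Agent.H370R3.SphereTools.Sph N → (Fin k → ℝ),
      e = fun x => fun i => x.1 (Fin.cast hN i) := ⟨_, rfl⟩
  have hec : Continuous e := by
    rw [he]
    exact continuous_pi fun i =>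
      (continuous_apply _).comp (PiLp.continuous_ofLp 2 _ |>.comp continuous_subtype_val)
  have hen : ∀ x, ‖e x‖ ≤ 1 := by
    intro x
    rw [pi_norm_le_iff_of_nonneg (by norm_num)]
    intro i
    rw [he]
    have h3 := PiLp.norm_apply_le x.1 (Fin.cast hN i)
    have h4 : ‖x.1‖ = 1 := by simp
    rw [h4] at h3
    exact h3
  have heneg : ∀ x, e (-x) = -e x := by
    intro x
    rw [he]
    funext i
    simp
  have hφc : Continuous fun u : Fin k → ℝ => φ (ρ • u) :=
    (LinearMap.continuous_of_finiteDimensional φ).comp (continuous_const_smul ρ)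
  have hstc : ∀ (t : ℕ) (f : Pool.Agent.H370R3.SphereTools.Sph N → (Fin n → ℝ)), Continuous f →
      Continuous fun x => st q (inp A R K (f x)) 0 t := fun t f hf =>
    (st_continuous q hp 0 t).comp ((inp_continuous A R K).comp hf)
  obtain ⟨x, hx⟩ := Pool.Agent.H370R3.SphereTools.borsuk_ulam (n := N) (m := S * w) (by omega)
    (fun x j => st q (inp A R K (x₀ + φ (ρ • e x))) 0 (fst q c ((finProdFinEquiv.symm j).1.1 + 1))
        (finProdFinEquiv.symm j).2 -
      st q (inp A R K (x₀ + φ (ρ • e (-x)))) 0 (fst q c ((finProdFinEquiv.symm j).1.1 + 1))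
        (finProdFinEquiv.symm j).2)
    (by
      refine continuous_pi fun j => Continuous.sub ?_ ?_
      · exact (continuous_apply _).comp
          (hstc _ _ (continuous_const.add (hφc.comp hec)))
      · exact (continuous_apply _).comp
          (hstc _ _ (continuous_const.add (hφc.comp (hec.comp continuous_neg)))))
    (by
      intro x
      funext j
      rw [neg_neg]
      simp)
  -- equal contents of the registers
  obtain ⟨u, hu⟩ : ∃ u, u = ρ • e x := ⟨_, rfl⟩
  have hu' : ρ • e (-x) = -u := by rw [hu, heneg, smul_neg]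
  rw [← hu, hu'] at hx
  have hcut : ∀ s, 1 ≤ s → s ≤ cnt q L / c →
      st q (inp A R K (x₀ + φ u)) 0 (fst q c s) = st q (inp A R K (x₀ + φ (-u))) 0 (fst q c s) := by
    intro s hs1 hs2
    funext l
    have hsS : s - 1 < S := by omega
    have h1 := congrFun hx (finProdFinEquiv (⟨s - 1, hsS⟩, l))
    simp only [Equiv.symm_apply_apply, Pi.zero_apply] at h1
    rw [show s - 1 + 1 = s by omega] at h1
    linarith
  have hVa : Ok q L 0 (inp A R K (x₀ + φ u)) := by
    rw [hu]
    exact hVo _ (hball _ (hen x))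
  have hVb : Ok q L 0 (inp A R K (x₀ + φ (-u))) := by
    rw [← hu']
    exact hVo _ (hball _ (hen (-x)))
  have heq : ∀ i, i ∉ X → i ∉ Y → inp A R K (x₀ + φ u) i = inp A R K (x₀ + φ (-u)) i := by
    intro i hiX hiY
    unfold inp
    by_cases hi : i ∈ R
    · rw [if_pos hi, if_pos hi, mulVec_add, mulVec_add, Pi.add_apply, Pi.add_apply,
        hφ0 u i hi hiX hiY, hφ0 (-u) i hi hiX hiY]
    · rw [if_neg hi, if_neg hi]
  -- which entries are read
  have hnY : ∀ t < L, J (sg q c t) → ∀ i, (q t).rd = some i → i ∉ Y :=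
    fun t ht hJ i hi hiY => hJY t ht i (hYY hiY) hi hJ
  have hnX : ∀ t < L, ¬ J (sg q c t) → ∀ i, (q t).rd = some i → i ∉ X :=
    fun t ht hJ i hi hiX => hJ (hJX t ht i (hXX hiX) hi)
  have hplus : Ok q L 0 (fun i => if i ∈ Y then inp A R K (x₀ + φ (-u)) i else
      inp A R K (x₀ + φ u) i) := by
    refine mix q _ _ _ J hVa hVb hcut (fun t ht hJ => ?_) (fun t ht hJ => ?_)
    · apply val_eq
      intro i hi
      exact if_neg (hnY t ht hJ i hi)
    · apply val_eq
      intro i hi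
      by_cases hiY : i ∈ Y
      · exact if_pos hiY
      · rw [if_neg hiY]
        exact heq i (hnX t ht hJ i hi) hiY
  have hminus : Ok q L 0 (fun i => if i ∈ Y then inp A R K (x₀ + φ u) i else
      inp A R K (x₀ + φ (-u)) i) := by
    refine mix q _ _ _ J hVb hVa (fun s h1 h2 => (hcut s h1 h2).symm) (fun t ht hJ => ?_)
      (fun t ht hJ => ?_)
    · apply val_eq
      intro i hi
      exact if_neg (hnY t ht hJ i hi)
    · apply val_eq
      intro i hi
      by_cases hiY : i ∈ Y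
      · exact if_pos hiY
      · rw [if_neg hiY]
        exact (heq i (hnX t ht hJ i hi) hiY).symm
  obtain ⟨x₁, hx₁⟩ := hs _ hplus
  obtain ⟨x₂, hx₂⟩ := hs _ hminus
  have hη := two_sided (A := A) R hR x₀ x₁ x₂
    (fun i => if i ∈ Y then -(A *ᵥ φ u) i else (A *ᵥ φ u) i)
    (fun i hi => by
      have h1 := hx₁ i
      simp only [hinR _ _ hi] at h1
      refine le_trans (le_of_eq ?_) h1
      by_cases hiY : i ∈ Y
      · simp only [if_pos hiY]
        rw [map_neg, mulVec_add, mulVec_neg]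
        rfl
      · simp only [if_neg hiY]
        rw [mulVec_add]
        rfl)
    (fun i hi => by
      have h1 := hx₂ i
      simp only [hinR _ _ hi] at h1
      refine le_trans (le_of_eq ?_) h1
      by_cases hiY : i ∈ Y
      · simp only [if_pos hiY]
        rw [mulVec_add, sub_neg_eq_add]
        rfl
      · simp only [if_neg hiY]
        rw [map_neg, mulVec_add, mulVec_neg]
        rfl)
  have hv1 : x₁ - x₀ - φ u = 0 := by
    refine gp_inj hg (R \ Y) (by rw [card_sdiff_of_subset hYR]; omega) _ fun i hi => ?_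
    obtain ⟨hiR, hiY⟩ := mem_sdiff.1 hi
    have h1 := hη i hiR
    simp only [if_neg hiY] at h1
    rw [mulVec_sub, Pi.sub_apply, ← h1, sub_self]
  have hv2 : x₁ - x₀ + φ u = 0 := by
    refine gp_inj hg (R \ X) (by rw [card_sdiff_of_subset hXR]; omega) _ fun i hi => ?_
    obtain ⟨hiR, hiX⟩ := mem_sdiff.1 hi
    have h1 := hη i hiR
    rw [mulVec_add, Pi.add_apply, ← h1]
    by_cases hiY : i ∈ Y
    · rw [if_pos hiY, neg_add_cancel]
    · rw [if_neg hiY, hφ0 u i hiR hiX hiY, add_zero]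
  have hφu : φ u = 0 := by
    have h1 : φ u + φ u = 0 := by
      have h2 : φ u + φ u = (x₁ - x₀ + φ u) - (x₁ - x₀ - φ u) := by abel
      rw [h2, hv1, hv2, sub_zero]
    have h5 : (2 : ℝ) • φ u = 0 := by rw [two_smul, h1]
    exact (smul_eq_zero.1 h5).resolve_left (by norm_num)
  have hu0 : u = 0 := by
    funext a
    rw [← hφX u a, hφu, mulVec_zero]
    rfl
  have hex : e x = 0 := by
    have h1 : ρ • e x = 0 := by rw [← hu, hu0]
    exact (smul_eq_zero.1 h1).resolve_left hρ.ne'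
  have hx0 : x.1 = 0 := by
    ext i
    have h7 := congrFun hex (Fin.cast hN.symm i)
    rw [he] at h7
    simpa using h7
  have h8 : ‖x.1‖ = 1 := by simp
  rw [hx0, norm_zero] at h8
  norm_num at h8

end Pool.Agent.Q230.AD
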