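import Pool.Agent.Q230.AD.Seg
import Pool.Agent.Q230.AD.Ball
import Pool.Agent.Q230.AD.Lp

set_option autoImplicit false

/-!
# Affine paths: the bound by linear algebra
-/

open Finset Matrix Topology

namespace Pool.Agent.Q230.AD

/-- The entry which is read, as a linear form. -/
noncomputable def rdl {p w : ℕ} (q : Pce (Fin p) w) : (Fin p → ℝ) →ₗ[ℝ] ℝ :=
  match q.rd with
  | some i => LinearMap.proj i
  | none => 0

theorem val_add {p w : ℕ} (q : Pce (Fin p) w) (b d : Fin p → ℝ) :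
    q.val (b + d) = q.val b + rdl q d := by
  unfold Pce.val rdl
  rcases hq : q.rd with _ | i
  · simp
  · rfl

theorem lin_st {p w : ℕ} (q : ℕ → Pce (Fin p) w)
    (hq : ∀ t, ∃ f : ((Fin w → ℝ) × ℝ) →ᵃ[ℝ] (Fin w → ℝ), (q t).g = f) (t : ℕ) :
    ∃ M : (Fin p → ℝ) →ₗ[ℝ] (Fin w → ℝ), ∀ b d, st q (b + d) 0 t = st q b 0 t + M d := by
  induction t with
  | zero => exact ⟨0, fun z d => by simp [st]⟩
  | succ t ih =>
    obtain ⟨M, hM⟩ := ih
    obtain ⟨f, hf⟩ := hq t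
    refine ⟨f.linear.comp (M.prod (rdl (q t))), fun b d => ?_⟩
    show (q t).g (_, _) = (q t).g (_, _) + _
    rw [hf, hM, val_add]
    have h1 : ((st q b 0 t + M d, (q t).val b + rdl (q t) d) :
        (Fin w → ℝ) × ℝ) = (M d, rdl (q t) d) +ᵥ
          ((st q b 0 t, (q t).val b) : (Fin w → ℝ) × ℝ) := by
      rw [vadd_eq_add, Prod.mk_add_mk, add_comm (M d), add_comm (rdl (q t) d)]
    rw [h1, AffineMap.map_vadd, vadd_eq_add, add_comm]
    rfl

variable {p n : ℕ} (A : Matrix (Fin p) (Fin n) ℝ)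

/-- **The bound for an affine path.** -/
theorem lin {w L : ℕ} (hg : GeneralPosition A) (hb : BoundedSolutions A) (hn : 1 ≤ n)
    (q : ℕ → Pce (Fin p) w)
    (hq : ∀ t, ∃ f : ((Fin w → ℝ) × ℝ) →ᵃ[ℝ] (Fin w → ℝ), (q t).g = f)
    (hs : ∀ b, Ok q L 0 b → ∃ x, b ≤ A *ᵥ x) (V : Set (Fin n → ℝ))
    (hV : IsOpen V) (hVne : V.Nonempty) (hVo : ∀ x ∈ V, Ok q L 0 (A *ᵥ x)) :
    p ≤ n + cnt q L / n * w := by
  classical
  by_contra hcon
  push Not at hcon
  have hnp := n_le_p hb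
  obtain ⟨x₀, hx₀⟩ := hVne
  obtain ⟨S, hS⟩ : ∃ S, S = cnt q L / n := ⟨_, rfl⟩
  rw [← hS] at hcon
  have hM := fun t => lin_st q hq t
  choose M hM using hM
  -- solutions of the equations for the entries which are read in a segment
  have hχ : ∀ s : ℕ, ∃ χ : (Fin p → ℝ) →ₗ[ℝ] (Fin n → ℝ),
      (s ≤ S → ∀ d, ∀ t < L, sg q n t = s → ∀ i, (q t).rd = some i → (A *ᵥ χ d) i = d i) ∧
      ∀ x, χ (A *ᵥ x) = x := by
    intro s
    by_cases hsS : s ≤ S
    · obtain ⟨I, hI⟩ : ∃ I : Finset (Fin p), I = univ.filter fun x =>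
        (⟨s, by omega⟩ : Fin (cnt q L / n + 1)) ∈ segs q n L x := ⟨_, rfl⟩
      have hIc : I.card ≤ n := by rw [hI]; exact card_seg_le q hn L univ _
      obtain ⟨χ, h1, h2⟩ := exists_chi hg hnp I hIc
      refine ⟨χ, fun _ d t ht hst i hi => h1 d i ?_, h2⟩
      rw [hI, mem_filter]
      exact ⟨mem_univ _, (mem_segs q).2 ⟨t, ht, hi, hst⟩⟩
    · obtain ⟨χ, -, h2⟩ := exists_chi hg hnp ∅ (by simp)
      exact ⟨χ, fun h => absurd h hsS, h2⟩
  choose χ hχ1 hχ2 using hχ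
  -- a direction which keeps the contents of the registers
  obtain ⟨Φ, hΦ⟩ : ∃ Φ : (Fin p → ℝ) →ₗ[ℝ] (Fin S × Fin w → ℝ), ∀ d j,
      Φ d j = M (fst q n (j.1.1 + 1)) (d - A *ᵥ χ (j.1.1 + 1) d) j.2 :=
    ⟨LinearMap.pi fun j => (LinearMap.proj j.2).comp
      ((M (fst q n (j.1.1 + 1))).comp (LinearMap.id - A.mulVecLin.comp (χ (j.1.1 + 1)))),
      fun d j => rfl⟩
  have hker : ¬ LinearMap.ker Φ ≤ LinearMap.range A.mulVecLin := by
    intro hle
    have h1 := Submodule.finrank_mono hle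
    have h2 := LinearMap.finrank_range_add_finrank_ker Φ
    have h3 := Submodule.finrank_le (LinearMap.range Φ)
    have h4 := LinearMap.finrank_range_le A.mulVecLin
    rw [Module.finrank_fin_fun] at h2 h4
    rw [Module.finrank_fintype_fun_eq_card, Fintype.card_prod, Fintype.card_fin,
      Fintype.card_fin] at h3
    omega
  obtain ⟨d, hd, hdr⟩ := Set.not_subset.1 hker
  rw [SetLike.mem_coe, LinearMap.mem_ker] at hd
  have hMd : ∀ s, 1 ≤ s → s ≤ S → M (fst q n s) (d - A *ᵥ χ s d) = 0 := by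
    intro s hs1 hs2
    funext l
    have h1 := congrFun hd (⟨s - 1, by omega⟩, l)
    rw [hΦ] at h1
    simp only [show s - 1 + 1 = s by omega] at h1
    exact h1
  -- a small multiple
  obtain ⟨δ, hδ, hδV⟩ : ∃ δ : ℝ, 0 < δ ∧ ∀ ε : ℝ, |ε| < δ → ∀ s ≤ S,
      x₀ + ε • χ s d ∈ V := by
    have h1 : ∀ᶠ ε : ℝ in 𝓝 0, ∀ s ∈ range (S + 1), x₀ + ε • χ s d ∈ V := by
      rw [Filter.eventually_all_finset]
      intro s _
      have h2 : Continuous fun ε : ℝ => x₀ + ε • χ s d := by fun_prop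
      have h3 := h2.continuousAt (x := 0)
      apply h3.eventually_mem
      rw [zero_smul, add_zero]
      exact hV.mem_nhds hx₀
    obtain ⟨δ, hδ, h2⟩ := Metric.eventually_nhds_iff.1 h1
    refine ⟨δ, hδ, fun ε hε s hsS => h2 ?_ s (mem_range.2 (by omega))⟩
    rwa [Real.dist_eq, sub_zero]
  have key : ∀ ε : ℝ, |ε| < δ → Ok q L 0 (A *ᵥ x₀ + ε • d) := by
    intro ε hε
    have hsgS : ∀ t < L, sg q n t ≤ S := fun t ht => by
      rw [hS]
      exact sg_mono q n ht.le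
    have hz' : ∀ s, A *ᵥ (x₀ + ε • χ s d) = A *ᵥ x₀ + ε • (A *ᵥ χ s d) := by
      intro s
      rw [mulVec_add, mulVec_smul]
    obtain ⟨z, hz⟩ : ∃ z : ℕ → Fin p → ℝ, z = fun t => A *ᵥ (x₀ + ε • χ (sg q n t) d) :=
      ⟨_, rfl⟩
    have hval : ∀ t < L, (q t).val (A *ᵥ x₀ + ε • d) = (q t).val (z t) := by
      intro t ht
      rw [hz]
      apply val_eq
      intro i hi
      show (A *ᵥ x₀ + ε • d) i = (A *ᵥ (x₀ + ε • χ (sg q n t) d)) i
      rw [hz']
      simp only [Pi.add_apply, Pi.smul_apply]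
      rw [hχ1 (sg q n t) (hsgS t ht) d t ht rfl i hi]
    refine hybrid q L 0 _ z hval ?_ (fun t ht => ?_)
    · intro t
      induction t with
      | zero => exact fun _ => rfl
      | succ t ih =>
        intro ht
        have h3 : st q (A *ᵥ x₀ + ε • d) 0 (t + 1) = st q (z t) 0 (t + 1) := by
          show (q t).g (_, _) = (q t).g (_, _)
          rw [ih (by omega), hval t (by omega)]
        by_cases hsg : sg q n (t + 1) = sg q n t
        · rw [h3, hz]
          simp only [hsg]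
        · have h4 := sg_succ q n t
          have h5 := hMd (sg q n (t + 1)) (by omega) (hsgS _ ht)
          rw [fst_eq q hsg] at h5
          rw [hz]
          show _ = st q (A *ᵥ (x₀ + ε • χ (sg q n (t + 1)) d)) 0 (t + 1)
          rw [hz', hM, hM]
          congr 1
          rw [map_sub, sub_eq_zero] at h5
          rw [map_smul, map_smul, h5]
    · rw [hz]
      exact hVo _ (hδV ε hε (sg q n t) (hsgS t ht))
  obtain ⟨x₁, hx₁⟩ := hs _ (key (δ / 2) (by rw [abs_of_pos (by positivity)]; linarith))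
  obtain ⟨x₂, hx₂⟩ := hs _ (key (-(δ / 2))
    (by rw [abs_neg, abs_of_pos (by positivity)]; linarith))
  have h1 := two_sided (A := A) univ (fun x hx => hb x fun i => hx i (mem_univ _)) x₀ x₁ x₂
    ((δ / 2) • d) (fun i _ => hx₁ i) (fun i _ => by
      have h2 := hx₂ i
      rw [neg_smul, ← sub_eq_add_neg] at h2
      exact h2)
  apply hdr
  refine ⟨(δ / 2)⁻¹ • (x₁ - x₀), ?_⟩
  rw [mulVecLin_apply, mulVec_smul]
  have h2 : A *ᵥ (x₁ - x₀) = (δ / 2) • d := funext fun i => (h1 i (mem_univ _)).symm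
  rw [h2, smul_smul, inv_mul_cancel₀ (by positivity), one_smul]

end Pool.Agent.Q230.AD
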