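import Mathlib

set_option autoImplicit false

/-!
# The asymptotic form of the bound
-/

open Filter

namespace Pool.Agent.Q230.AD

theorem numeric (ε : ℝ) (hε : 0 < ε) (hε1 : ε ≤ 1) : ∃ m₀ : ℕ, 2 ≤ m₀ ∧ ∀ m ≥ m₀,
    ∀ r w : ℕ, (r : ℝ) ≤ ε / 5 * Real.logb 2 m + 1 → (w : ℝ) ≤ (m : ℝ) ^ (1 - ε) →
      16 * r ^ 2 * w < m / 2 ^ (4 * r + 2) := by
  obtain ⟨D, hD⟩ : ∃ D : ℝ, D = 40 / ε + 1 := ⟨_, rfl⟩
  have hDpos : 0 < D := by rw [hD]; positivity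
  obtain ⟨W, hW⟩ : ∃ W : ℝ, W = 2 ^ 6 * (16 * D ^ 2 + 1) := ⟨_, rfl⟩
  have htend : Tendsto (fun m : ℕ => (m : ℝ) ^ (ε / 10)) atTop atTop :=
    (tendsto_rpow_atTop (by positivity)).comp tendsto_natCast_atTop_atTop
  obtain ⟨m₀, hm₀⟩ := (htend.eventually_gt_atTop W).exists_forall_of_atTop
  refine ⟨max m₀ 2, le_max_right _ _, fun m hm r w hr hw => ?_⟩
  have hP := hm₀ m (le_trans (le_max_left _ _) hm)
  have hm2 : (2 : ℝ) ≤ m := by exact_mod_cast le_trans (le_max_right _ _) hm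
  obtain ⟨x, hx⟩ : ∃ x : ℝ, x = m := ⟨_, rfl⟩
  rw [← hx] at hP hm2 hw hr
  obtain ⟨P, hPd⟩ : ∃ P : ℝ, P = x ^ (ε / 10) := ⟨_, rfl⟩
  rw [← hPd] at hP
  have hx0 : (0 : ℝ) < x := by linarith
  have hx1 : (1 : ℝ) ≤ x := by linarith
  have hP1 : (1 : ℝ) ≤ P := by rw [hPd]; exact Real.one_le_rpow hx1 (by positivity)
  have hyy : (x ^ (ε / 20)) ^ 2 = P := by
    rw [hPd, ← Real.rpow_natCast, ← Real.rpow_mul hx0.le]
    congr 1
    push_cast
    ring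
  have hy1 : (1 : ℝ) ≤ x ^ (ε / 20) := Real.one_le_rpow hx1 (by positivity)
  have hlog2 : (1 / 2 : ℝ) < Real.log 2 := by
    have := Real.log_two_gt_d9
    linarith
  have hlogx : 0 ≤ Real.log x := Real.log_nonneg hx1
  have hlogb0 : 0 ≤ Real.logb 2 x := Real.logb_nonneg (by norm_num) hx1
  have hlogb : Real.logb 2 x ≤ 40 / ε * x ^ (ε / 20) := by
    have h1 := Real.log_le_rpow_div hx0.le (show (0 : ℝ) < ε / 20 by positivity)
    have h2 : Real.logb 2 x ≤ 2 * Real.log x := by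
      rw [Real.logb, div_le_iff₀ (by linarith)]
      nlinarith
    calc Real.logb 2 x ≤ 2 * Real.log x := h2
      _ ≤ 2 * (x ^ (ε / 20) / (ε / 20)) := by linarith
      _ = _ := by field_simp; ring
  have hrD : (r : ℝ) ≤ D * x ^ (ε / 20) := by
    have h1 : ε / 5 * Real.logb 2 x ≤ 1 * Real.logb 2 x := by
      apply mul_le_mul_of_nonneg_right _ hlogb0
      linarith
    rw [hD, add_mul, one_mul]
    linarith
  have hr2 : (r : ℝ) ^ 2 ≤ D ^ 2 * P := by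
    calc (r : ℝ) ^ 2 ≤ (D * x ^ (ε / 20)) ^ 2 := by
          apply pow_le_pow_left₀ (Nat.cast_nonneg _) hrD
      _ = _ := by rw [mul_pow, hyy]
  have hx1e : (1 : ℝ) ≤ x ^ (1 - ε) := Real.one_le_rpow hx1 (by linarith)
  have hcK : 16 * (r : ℝ) ^ 2 * w + 1 < x ^ (1 - ε) * P ^ 2 / 2 ^ 6 := by
    have h1 : 16 * (r : ℝ) ^ 2 * w ≤ 16 * (D ^ 2 * P) * x ^ (1 - ε) := by gcongr
    have h2 : x ^ (1 - ε) * P * W < x ^ (1 - ε) * P * P := by
      apply mul_lt_mul_of_pos_left hP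
      positivity
    have h3 : x ^ (1 - ε) * P * W / 2 ^ 6 = 16 * (D ^ 2 * P) * x ^ (1 - ε) + x ^ (1 - ε) * P := by
      rw [hW]
      ring
    have h4 : (1 : ℝ) ≤ x ^ (1 - ε) * P := by nlinarith
    have h5 : x ^ (1 - ε) * P * W / 2 ^ 6 < x ^ (1 - ε) * P ^ 2 / 2 ^ 6 := by
      apply div_lt_div_of_pos_right _ (by positivity)
      calc x ^ (1 - ε) * P * W < x ^ (1 - ε) * P * P := h2
        _ = _ := by ring
    linarith
  -- the power of two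
  have hd : ((2 : ℝ) ^ (4 * r + 2)) ≤ 2 ^ 6 * x ^ (4 * ε / 5) := by
    have h1 : ((2 : ℝ) ^ (4 * r + 2)) = (2 : ℝ) ^ ((4 : ℝ) * r + 2) := by
      rw [← Real.rpow_natCast]
      congr 1
      push_cast
      ring
    have h2 : (2 : ℝ) ^ (Real.logb 2 x) = x := Real.rpow_logb (by norm_num) (by norm_num) hx0
    rw [h1]
    calc (2 : ℝ) ^ ((4 : ℝ) * r + 2) ≤ (2 : ℝ) ^ (6 + Real.logb 2 x * (4 * ε / 5)) := by
          apply Real.rpow_le_rpow_of_exponent_le (by norm_num)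
          nlinarith
      _ = (2 : ℝ) ^ (6 : ℝ) * ((2 : ℝ) ^ (Real.logb 2 x)) ^ (4 * ε / 5) := by
          rw [Real.rpow_add (by norm_num), Real.rpow_mul (by norm_num)]
      _ = _ := by
          rw [h2]
          norm_num
  have hdpos : (0 : ℝ) < 2 ^ (4 * r + 2) := by positivity
  have hquot : x ^ (1 - ε) * P ^ 2 / 2 ^ 6 ≤ x / 2 ^ (4 * r + 2) := by
    have h1 : x ^ (1 - ε) * P ^ 2 * x ^ (4 * ε / 5) = x := by
      rw [hPd, ← Real.rpow_natCast (x ^ (ε / 10)), ← Real.rpow_mul hx0.le, ← Real.rpow_add hx0,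
        ← Real.rpow_add hx0]
      conv_rhs => rw [← Real.rpow_one x]
      congr 1
      push_cast
      ring
    rw [div_le_div_iff₀ (by positivity) hdpos]
    calc x ^ (1 - ε) * P ^ 2 * 2 ^ (4 * r + 2) ≤
        x ^ (1 - ε) * P ^ 2 * (2 ^ 6 * x ^ (4 * ε / 5)) := by
          apply mul_le_mul_of_nonneg_left hd
          positivity
      _ = (x ^ (1 - ε) * P ^ 2 * x ^ (4 * ε / 5)) * 2 ^ 6 := by ring
      _ = _ := by rw [h1]
  have hfloor : x / 2 ^ (4 * r + 2) < ((m / 2 ^ (4 * r + 2) : ℕ) : ℝ) + 1 := by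
    rw [div_lt_iff₀ hdpos, hx]
    have h1 : m < (m / 2 ^ (4 * r + 2) + 1) * 2 ^ (4 * r + 2) := by
      have := Nat.lt_div_mul_add (a := m) (b := 2 ^ (4 * r + 2)) (by positivity)
      rw [add_mul, one_mul]
      exact this
    exact_mod_cast h1
  have hfin : ((16 * r ^ 2 * w : ℕ) : ℝ) < ((m / 2 ^ (4 * r + 2) : ℕ) : ℝ) := by
    push_cast
    linarith
  exact_mod_cast hfin

/-- The choice of `r`. -/
theorem choose_r {m : ℕ} {ε : ℝ} (hε : 0 < ε) (hm : 1 ≤ m) : ∃ r : ℕ, 1 ≤ r ∧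
    (r : ℝ) ≤ ε / 5 * Real.logb 2 m + 1 ∧ ε / 5 * (m * Real.logb 2 m) ≤ r * m := by
  have hm0 : (0 : ℝ) < m := by exact_mod_cast hm
  have h0 : 0 ≤ ε / 5 * Real.logb 2 m := by
    apply mul_nonneg (by positivity)
    exact Real.logb_nonneg (by norm_num) (by exact_mod_cast hm)
  refine ⟨⌊ε / 5 * Real.logb 2 m⌋₊ + 1, Nat.le_add_left _ _, ?_, ?_⟩
  · push_cast
    have := Nat.floor_le h0
    linarith
  · have h1 := Nat.lt_floor_add_one (ε / 5 * Real.logb 2 m)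
    push_cast
    nlinarith

end Pool.Agent.Q230.AD
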