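import Pool.Agent.Q230.AD.Fool
import Pool.Agent.Q230.AD.Lin
import Pool.Agent.Q230.AD.Num

set_option autoImplicit false

/-!
# The two lower bounds
-/

open Finset Matrix

namespace Pool.Agent.Q230.AD

variable {p n : ℕ}

/-- A bound for the entries of `A x`. -/
theorem exists_bound (A : Matrix (Fin p) (Fin n) ℝ) : ∃ K : ℝ, ∀ x : Fin n → ℝ, ‖x‖ < 1 →
    ∀ i, -K ≤ (A *ᵥ x) i := by
  refine ⟨∑ i, ∑ j, |A i j|, fun x hx i => ?_⟩
  have h1 : |(A *ᵥ x) i| ≤ ∑ j, |A i j| := by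
    show |∑ j, A i j * x j| ≤ _
    refine (Finset.abs_sum_le_sum_abs _ _).trans (Finset.sum_le_sum fun j _ => ?_)
    rw [abs_mul]
    have h2 : |x j| ≤ 1 := by
      have := norm_le_pi_norm x j
      rw [Real.norm_eq_abs] at this
      linarith
    have h3 := abs_nonneg (A i j)
    nlinarith
  have h2 : ∑ j, |A i j| ≤ ∑ i, ∑ j, |A i j| :=
    Finset.single_le_sum (f := fun i => ∑ j, |A i j|)
      (fun i _ => Finset.sum_nonneg fun j _ => abs_nonneg _) (mem_univ i)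
  have h3 := neg_abs_le ((A *ᵥ x) i)
  linarith

/-- **Arbitrary continuous instructions.** -/
theorem continuous_bound {k r w : ℕ} (A : Matrix (Fin p) (Fin n) ℝ) (hg : GeneralPosition A)
    (hb : BoundedSolutions A) (hr : 1 ≤ r) (hkp : n + k ≤ p)
    (hkn : 2 ^ (4 * r + 2) * k ≤ n + k) (hw : 16 * r ^ 2 * w < k)
    (P : ℕ → Prog (Fin p) w) (hP : ∀ N, (P N).IsContinuous)
    (hs : ∀ N b l, (P N).IsRun b l → ∃ x, b ≤ A *ᵥ x) :
    ∃ b, (∃ x, b ≤ A *ᵥ x) ∧ ∀ N l, (P N).IsRun b l → r * (n + k) < reads l := by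
  by_contra hcon
  push Not at hcon
  obtain ⟨R₀, hR₀, hR₀'⟩ := exists_rows hg hb
  obtain ⟨R, hRR, -, hRc⟩ := Finset.exists_subsuperset_card_eq (Finset.subset_univ R₀)
    (show R₀.card ≤ n + k by omega) (by rw [card_univ, Fintype.card_fin]; exact hkp)
  obtain ⟨K, hK⟩ := exists_bound A
  obtain ⟨N, q, L, V, h1, h2, -, h4, h5, h6, h7⟩ := exists_ball
    (inp A R K) (inp_continuous A R K)
    (Metric.ball 0 1) Metric.isOpen_ball ⟨0, Metric.mem_ball_self one_pos⟩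
    {g | Continuous g} (fun g hg => hg) continuous_fst P
    (fun N I hI => covered_of_continuous (hP N I hI)) (fun T => T ≤ r * (n + k))
    (fun x hx => by
      rw [mem_ball_zero_iff] at hx
      obtain ⟨N, l, h1, h2⟩ := hcon (inp A R K x) ⟨x, fun i => by
        unfold inp
        by_cases hi : i ∈ R
        · simp only [if_pos hi]
          exact le_rfl
        · simp only [if_neg hi]
          exact hK x hx i⟩
      exact ⟨N, l, h1, h2⟩)
  have h8 := fool A hg (n_le_p hb) R hRc (fun x hx => hR₀' x fun i hi => hx i (hRR hi)) hr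
    (by omega) hkn K q h5
    (fun b hb => by
      obtain ⟨l, hl⟩ := h7 b hb
      exact hs N b l hl) h6 V h1 h2 h4
  omega

/-- **The asymptotic form.** -/
theorem continuous_log (ε : ℝ) (hε : 0 < ε) (hε1 : ε ≤ 1) : ∃ n₀ : ℕ, ∀ n ≥ n₀, ∀ p : ℕ,
    n + n / 64 ≤ p → ∀ A : Matrix (Fin p) (Fin n) ℝ, GeneralPosition A → BoundedSolutions A →
    ∀ w : ℕ, (w : ℝ) ≤ (n : ℝ) ^ (1 - ε) → ∀ P : ℕ → Prog (Fin p) w,
    (∀ N, (P N).IsContinuous) → (∀ N b l, (P N).IsRun b l → ∃ x, b ≤ A *ᵥ x) →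
    ∃ b, (∃ x, b ≤ A *ᵥ x) ∧ ∀ N l, (P N).IsRun b l →
      ε / 5 * (n * Real.logb 2 n) < (reads l : ℝ) := by
  obtain ⟨n₀, h2, hn₀⟩ := numeric ε hε hε1
  refine ⟨n₀, fun n hn p hnp A hg hb w hw P hP hs => ?_⟩
  obtain ⟨r, hr1, hr2, hr3⟩ := choose_r (m := n) hε (by omega)
  have hk : n / 2 ^ (4 * r + 2) ≤ n / 64 :=
    Nat.div_le_div_left (by
      calc 64 = 2 ^ (4 * 1 + 2) := by norm_num
        _ ≤ 2 ^ (4 * r + 2) := Nat.pow_le_pow_right (by norm_num) (by omega)) (by norm_num)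
  obtain ⟨b, hb1, hb2⟩ := continuous_bound (k := n / 2 ^ (4 * r + 2)) A hg hb hr1 (by omega)
    ((Nat.mul_div_le _ _).trans (Nat.le_add_right _ _)) (hn₀ n hn r w hr2 hw) P hP hs
  refine ⟨b, hb1, fun N l hl => lt_of_le_of_lt hr3 ?_⟩
  have h3 := hb2 N l hl
  have h4 : r * n < reads l := lt_of_le_of_lt (Nat.mul_le_mul_left _ (Nat.le_add_right _ _)) h3
  exact_mod_cast h4

/-- **Affine instructions.** -/
theorem affine_bound {w : ℕ} (A : Matrix (Fin p) (Fin n) ℝ) (hg : GeneralPosition A)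
    (hb : BoundedSolutions A) (P : ℕ → Prog (Fin p) w) (hP : ∀ N, (P N).IsAffine)
    (hs : ∀ N b l, (P N).IsRun b l → ∃ x, b ≤ A *ᵥ x) :
    ∃ b, (∃ x, b ≤ A *ᵥ x) ∧ ∀ N l, (P N).IsRun b l → n * (p - n) ≤ w * reads l := by
  by_contra hcon
  push Not at hcon
  obtain ⟨N, q, L, V, h1, h2, -, h4, h5, h6, h7⟩ := exists_ball
    (fun x => A *ᵥ x) (Continuous.matrix_mulVec continuous_const continuous_id)
    (Set.univ : Set (Fin n → ℝ)) isOpen_univ ⟨0, trivial⟩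
    {g | ∃ f : ((Fin w → ℝ) × ℝ) →ᵃ[ℝ] (Fin w → ℝ), g = f}
    (by
      rintro g ⟨f, rfl⟩
      exact f.continuous_of_finiteDimensional)
    ⟨(LinearMap.fst ℝ _ _).toAffineMap, rfl⟩ P
    (fun N I hI => covered_of_affine (hP N I hI)) (fun T => w * T < n * (p - n))
    (fun x _ => by
      obtain ⟨N, l, h1, h2⟩ := hcon (A *ᵥ x) ⟨x, le_rfl⟩
      exact ⟨N, l, h1, h2⟩)
  have hpos : 0 < n * (p - n) := lt_of_le_of_lt (Nat.zero_le _) h6
  have hn1 : 1 ≤ n := Nat.pos_of_ne_zero fun h => by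
    rw [h, zero_mul] at hpos
    exact lt_irrefl _ hpos
  have h8 := lin A hg hb hn1 q h5
    (fun b hb => by
      obtain ⟨l, hl⟩ := h7 b hb
      exact hs N b l hl) V h1 h2 h4
  have h9 : n * (p - n) ≤ w * cnt q L := by
    calc n * (p - n) ≤ n * (cnt q L / n * w) := Nat.mul_le_mul_left _ (by omega)
      _ = w * (cnt q L / n * n) := by ring
      _ ≤ w * cnt q L := Nat.mul_le_mul_left _ (Nat.div_mul_le_self _ _)
  omega

end Pool.Agent.Q230.AD
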