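import Mathlib

set_option autoImplicit false

/-!
# Adaptive programs with real registers and unlimited discrete memory

Definitions only.
-/

namespace Pool.Agent.Q230.AD

/-- An instruction of a program with control states in `Q`, inputs `b : ι → ℝ` and `w` registers for
real numbers. It may be executed in the control state `src` if the contents of the registers and the
number which is read (the entry `b i` if `read = some i`, and `0` if `read = none`) are in the set
`dom`. Then the new contents of the registers are given by `upd`, and the new control state is
`tgt`. -/
structure Instr (Q ι : Type) (w : ℕ) where
  /-- the control state in which the instruction may be executed -/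
  src : Q
  /-- the next control state -/
  tgt : Q
  /-- the entry of the input which is read -/
  read : Option ι
  /-- the condition for the execution -/
  dom : Set ((Fin w → ℝ) × ℝ)
  /-- the new contents of the registers -/
  upd : (Fin w → ℝ) × ℝ → Fin w → ℝ

namespace Instr

variable {Q ι : Type} {w : ℕ}

/-- The number which is read by the instruction. -/
def val (I : Instr Q ι w) (b : ι → ℝ) : ℝ := I.read.elim 0 b

/-- The set `dom` is a union of countably many closed sets. -/
def Domain (I : Instr Q ι w) : Prop :=
  ∃ F : ℕ → Set ((Fin w → ℝ) × ℝ), (∀ n, IsClosed (F n)) ∧ I.dom = ⋃ n, F n

/-- The new contents of the registers depend continuously on the old ones and the number which is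
read, as long as the condition for the execution holds. -/
def IsContinuous (I : Instr Q ι w) : Prop := I.Domain ∧ ContinuousOn I.upd I.dom

/-- The new contents of the registers are an affine function of the old ones and the number which is
read, as long as the condition for the execution holds. -/
def IsAffine (I : Instr Q ι w) : Prop :=
  I.Domain ∧ ∃ f : ((Fin w → ℝ) × ℝ) →ᵃ[ℝ] (Fin w → ℝ), Set.EqOn I.upd f I.dom

end Instr

/-- A program with `w` registers for real numbers: a countable set of instructions. The control state
may contain any number of integers and other discrete data. Which entry of the input is read may
depend on everything that happened before. The program is nondeterministic: several instructions may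
be possible at the same time. -/
structure Prog (ι : Type) (w : ℕ) where
  /-- the control states -/
  Q : Type
  /-- the first control state -/
  start : Q
  /-- the accepting control states -/
  acc : Set Q
  /-- the instructions -/
  instrs : Set (Instr Q ι w)
  countable : instrs.Countable

namespace Prog

variable {ι : Type} {w : ℕ} (P : Prog ι w)

/-- The instructions of the list can be executed one after the other for the input `b`, when we start
in the control state `q` with the contents `y` of the registers, and the last control state is
accepting. -/
def RunFrom (b : ι → ℝ) : P.Q → (Fin w → ℝ) → List (Instr P.Q ι w) → Prop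
  | q, _, [] => q ∈ P.acc
  | q, y, I :: l => I ∈ P.instrs ∧ I.src = q ∧ (y, I.val b) ∈ I.dom ∧
      RunFrom b I.tgt (I.upd (y, I.val b)) l

/-- The list is an accepting run for the input `b`; at the beginning the registers contain `0`. -/
def IsRun (b : ι → ℝ) (l : List (Instr P.Q ι w)) : Prop := P.RunFrom b P.start 0 l

/-- All instructions are continuous. -/
def IsContinuous : Prop := ∀ I ∈ P.instrs, I.IsContinuous

/-- All instructions are affine. -/
def IsAffine : Prop := ∀ I ∈ P.instrs, I.IsAffine

end Prog

/-- The number of times at which an entry of the input is read. -/
def reads {Q ι : Type} {w : ℕ} (l : List (Instr Q ι w)) : ℕ := l.countP fun I => I.read.isSome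

/-- The rows of the matrix are in general position: any `n` of them are linearly independent. -/
def GeneralPosition {p n : ℕ} (A : Matrix (Fin p) (Fin n) ℝ) : Prop :=
  ∀ s : Fin n → Fin p, Function.Injective s → (A.submatrix s id).det ≠ 0

/-- The inequalities `A x ≥ 0` have no solution except `x = 0`. Equivalently, the set of the solutions
of `A x ≥ b` is bounded for all `b`. -/
def BoundedSolutions {p n : ℕ} (A : Matrix (Fin p) (Fin n) ℝ) : Prop :=
  ∀ x : Fin n → ℝ, 0 ≤ A.mulVec x → x = 0

end Pool.Agent.Q230.AD
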