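import Pool.Agent.Q230.AD.Model

set_option autoImplicit false

/-!
# Paths of programs
-/

namespace Pool.Agent.Q230.AD

/-- An executed instruction: what is read, a closed part of the domain, and the function. -/
structure Pce (ι : Type) (w : ℕ) where
  /-- what is read -/
  rd : Option ι
  /-- a part of the domain -/
  F : Set ((Fin w → ℝ) × ℝ)
  /-- the function -/
  g : (Fin w → ℝ) × ℝ → Fin w → ℝ

variable {ι : Type} {w : ℕ}

/-- The number which is read. -/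
def Pce.val (p : Pce ι w) (b : ι → ℝ) : ℝ := p.rd.elim 0 b

/-- The contents of the registers. -/
def st (p : ℕ → Pce ι w) (b : ι → ℝ) (y : Fin w → ℝ) : ℕ → Fin w → ℝ
  | 0 => y
  | t + 1 => (p t).g (st p b y t, (p t).val b)

/-- The conditions at the first `L` steps hold. -/
def Ok (p : ℕ → Pce ι w) (L : ℕ) (y : Fin w → ℝ) (b : ι → ℝ) : Prop :=
  ∀ t < L, (st p b y t, (p t).val b) ∈ (p t).F

theorem st_shift (p : ℕ → Pce ι w) (b : ι → ℝ) (y : Fin w → ℝ) (t : ℕ) :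
    st p b y (t + 1) = st (fun s => p (s + 1)) b ((p 0).g (y, (p 0).val b)) t := by
  induction t with
  | zero => rfl
  | succ t ih =>
    show (p (t + 1)).g (st p b y (t + 1), _) = (p (t + 1)).g (_, _)
    rw [ih]

theorem ok_succ (p : ℕ → Pce ι w) (L : ℕ) (b : ι → ℝ) (y : Fin w → ℝ) :
    Ok p (L + 1) y b ↔ (y, (p 0).val b) ∈ (p 0).F ∧
      Ok (fun s => p (s + 1)) L ((p 0).g (y, (p 0).val b)) b := by
  constructor
  · intro h
    refine ⟨h 0 (Nat.succ_pos _), fun t ht => ?_⟩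
    have h1 := h (t + 1) (Nat.succ_lt_succ ht)
    rw [st_shift] at h1
    exact h1
  · rintro ⟨h1, h2⟩ t ht
    rcases t with _ | t
    · exact h1
    · rw [st_shift]
      exact h2 t (Nat.lt_of_succ_lt_succ ht)

/-- The instruction is given by functions in `𝒞` on closed sets. -/
def Covered {Q : Type} (𝒞 : Set ((Fin w → ℝ) × ℝ → Fin w → ℝ)) (I : Instr Q ι w)
    (F : ℕ → Set ((Fin w → ℝ) × ℝ)) (g : ℕ → (Fin w → ℝ) × ℝ → Fin w → ℝ) : Prop :=
  (∀ n, IsClosed (F n)) ∧ I.dom = ⋃ n, F n ∧ ∀ n, g n ∈ 𝒞 ∧ Set.EqOn I.upd (g n) (F n)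

theorem covered_of_continuous {Q : Type} {I : Instr Q ι w} (hI : I.IsContinuous) :
    ∃ F g, Covered {g | Continuous g} I F g := by
  obtain ⟨⟨F, hF, hd⟩, hc⟩ := hI
  have h1 : ∀ n, ∃ g : (Fin w → ℝ) × ℝ → Fin w → ℝ, Continuous g ∧ Set.EqOn I.upd g (F n) := by
    intro n
    have h2 : ContinuousOn I.upd (F n) := hc.mono (by rw [hd]; exact Set.subset_iUnion _ _)
    obtain ⟨g, hg⟩ := ContinuousMap.exists_restrict_eq (hF n)
      (⟨(F n).domRestrict I.upd, continuousOn_iff_continuous_domRestrict.1 h2⟩ : C(F n, Fin w → ℝ))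
    refine ⟨g, g.continuous, fun x hx => ?_⟩
    have h3 := DFunLike.congr_fun hg ⟨x, hx⟩
    exact h3.symm
  choose g hg1 hg2 using h1
  exact ⟨F, g, hF, hd, fun n => ⟨hg1 n, hg2 n⟩⟩

theorem covered_of_affine {Q : Type} {I : Instr Q ι w} (hI : I.IsAffine) :
    ∃ F g, Covered {g | ∃ f : ((Fin w → ℝ) × ℝ) →ᵃ[ℝ] (Fin w → ℝ), g = f} I F g := by
  obtain ⟨⟨F, hF, hd⟩, f, hf⟩ := hI
  exact ⟨F, fun _ => f, hF, hd, fun n => ⟨⟨f, rfl⟩,
    hf.mono (by rw [hd]; exact Set.subset_iUnion _ _)⟩⟩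

section

variable {P : Prog ι w} {𝒞 : Set ((Fin w → ℝ) × ℝ → Fin w → ℝ)}
  (F : P.instrs → ℕ → Set ((Fin w → ℝ) × ℝ)) (g : P.instrs → ℕ → (Fin w → ℝ) × ℝ → Fin w → ℝ)

/-- The path given by a list of instructions and numbers of the parts of their domains. -/
def pth (l : List (P.instrs × ℕ)) (t : ℕ) : Pce ι w :=
  (l[t]?).elim ⟨none, Set.univ, Prod.fst⟩ fun a => ⟨a.1.1.read, F a.1 a.2, g a.1 a.2⟩

/-- The instructions of a list. -/
def ins (l : List (P.instrs × ℕ)) : List (Instr P.Q ι w) := l.map fun a => a.1.1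

theorem pth_shift (a : P.instrs × ℕ) (l : List (P.instrs × ℕ)) :
    (fun s => pth F g (a :: l) (s + 1)) = pth F g l := by
  funext s
  simp [pth]

theorem exists_path (hc : ∀ I, Covered 𝒞 I.1 (F I) (g I)) (b : ι → ℝ) (l : List (Instr P.Q ι w)) :
    ∀ (q : P.Q) (y : Fin w → ℝ), P.RunFrom b q y l →
      ∃ l' : List (P.instrs × ℕ), ins l' = l ∧ Ok (pth F g l') l'.length y b := by
  induction l with
  | nil => exact fun q y _ => ⟨[], rfl, fun t ht => absurd ht (Nat.not_lt_zero _)⟩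
  | cons I l ih =>
    rintro q y ⟨hI, -, hd, hr⟩
    obtain ⟨h1, h2, h3⟩ := hc ⟨I, hI⟩
    have h4 : (y, I.val b) ∈ ⋃ n, F ⟨I, hI⟩ n := by rw [← h2]; exact hd
    obtain ⟨n, hn⟩ := Set.mem_iUnion.1 h4
    obtain ⟨l', h5, h6⟩ := ih _ _ hr
    refine ⟨(⟨I, hI⟩, n) :: l', by rw [← h5]; rfl, ?_⟩
    rw [List.length_cons, ok_succ]
    refine ⟨hn, ?_⟩
    rw [pth_shift]
    have h7 := (h3 n).2 hn
    rw [show (pth F g ((⟨I, hI⟩, n) :: l') 0).g = g ⟨I, hI⟩ n from rfl,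
      show (pth F g ((⟨I, hI⟩, n) :: l') 0).val b = I.val b from rfl, ← h7]
    exact h6

theorem run_of_path (hc : ∀ I, Covered 𝒞 I.1 (F I) (g I)) (b b₁ : ι → ℝ)
    (l : List (P.instrs × ℕ)) : ∀ (q : P.Q) (y y₁ : Fin w → ℝ), P.RunFrom b₁ q y₁ (ins l) →
      Ok (pth F g l) l.length y b → P.RunFrom b q y (ins l) := by
  induction l with
  | nil => exact fun q y y₁ h _ => h
  | cons a l ih =>
    rintro q y y₁ ⟨hI, hq, -, hr⟩ ho
    rw [List.length_cons, ok_succ, pth_shift] at ho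
    obtain ⟨ho1, ho2⟩ := ho
    obtain ⟨h1, h2, h3⟩ := hc a.1
    have h7 := (h3 a.2).2 ho1
    refine ⟨hI, hq, ?_, ?_⟩
    · rw [h2]
      exact Set.mem_iUnion.2 ⟨a.2, ho1⟩
    · refine ih _ _ _ hr ?_
      have h8 : a.1.1.upd (y, a.1.1.val b) = g a.1 a.2 (y, a.1.1.val b) := h7
      rw [h8]
      exact ho2

theorem pth_mem (hc : ∀ I, Covered 𝒞 I.1 (F I) (g I)) (h𝒞 : Prod.fst ∈ 𝒞)
    (l : List (P.instrs × ℕ)) (t : ℕ) :
    (pth F g l t).g ∈ 𝒞 ∧ IsClosed (pth F g l t).F := by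
  unfold pth
  rcases h : l[t]? with _ | a
  · exact ⟨h𝒞, isClosed_univ⟩
  · exact ⟨((hc a.1).2.2 a.2).1, (hc a.1).1 a.2⟩

end

/-- An entry is read. -/
def Pce.counts {ι : Type} {w : ℕ} (p : Pce ι w) : Bool := p.rd.isSome

/-- The number of reads before the time `t`. -/
def cnt {ι : Type} {w : ℕ} (p : ℕ → Pce ι w) (t : ℕ) : ℕ :=
  Nat.count (fun s => (p s).counts = true) t

theorem cnt_pth {ι : Type} {w : ℕ} {P : Prog ι w}
    (F : P.instrs → ℕ → Set ((Fin w → ℝ) × ℝ)) (g : P.instrs → ℕ → (Fin w → ℝ) × ℝ → Fin w → ℝ)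
    (l : List (P.instrs × ℕ)) : cnt (pth F g l) l.length = reads (ins l) := by
  induction l with
  | nil => simp [cnt, reads, ins]
  | cons a l ih =>
    have h1 : cnt (pth F g (a :: l)) (l.length + 1) = cnt (pth F g l) l.length +
        if a.1.1.read.isSome = true then 1 else 0 := by
      unfold cnt
      rw [Nat.count_succ']
      have h2 : (fun s => (pth F g (a :: l) (s + 1)).counts = true) =
          fun s => (pth F g l s).counts = true := by
        have := pth_shift F g a l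
        funext s
        rw [← congrFun this s]
      have h3 : (pth F g (a :: l) 0).counts = a.1.1.read.isSome := rfl
      simp only [h3]
      congr 1
    rw [List.length_cons, h1, ih]
    show _ = List.countP _ (a.1.1 :: ins l)
    rw [List.countP_cons]
    rfl

end Pool.Agent.Q230.AD
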