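import Pool.Agent.Q230.AD.Path
import Pool.Agent.Y631.WcA

set_option autoImplicit false

/-!
# Dividing a path into segments with few reads
-/

open Finset

namespace Pool.Agent.Q230.AD

section

variable {ι : Type} {w : ℕ} (p : ℕ → Pce ι w) (L : ℕ) (y : Fin w → ℝ) (h : ι → ℝ)
  (z : ℕ → ι → ℝ)

theorem hybrid (h1 : ∀ t < L, (p t).val h = (p t).val (z t))
    (h2 : ∀ t < L, st p h y t = st p (z t) y t) (h3 : ∀ t < L, Ok p L y (z t)) : Ok p L y h := by
  intro t ht
  rw [h1 t ht, h2 t ht]
  exact h3 t ht t ht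

end

variable {ι : Type} {w : ℕ} (p : ℕ → Pce ι w)

/-- The number of the segment of the time `t`. -/
def sg (c t : ℕ) : ℕ := cnt p t / c

theorem cnt_mono : Monotone (cnt p) := Nat.count_monotone _

theorem cnt_succ (t : ℕ) : cnt p (t + 1) = cnt p t + if (p t).counts = true then 1 else 0 :=
  Nat.count_succ _ _

theorem sg_zero (c : ℕ) : sg p c 0 = 0 := by
  simp [sg, cnt]

theorem sg_mono (c : ℕ) : Monotone (sg p c) := fun _ _ h => Nat.div_le_div_right (cnt_mono p h)

theorem sg_succ (c t : ℕ) : sg p c (t + 1) = sg p c t ∨ sg p c (t + 1) = sg p c t + 1 := by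
  rcases Nat.eq_zero_or_pos c with hc | hc
  · left
    simp [sg, hc]
  · have h1 : sg p c t ≤ sg p c (t + 1) := sg_mono p c (Nat.le_succ t)
    have h2 : sg p c (t + 1) ≤ sg p c t + 1 := by
      unfold sg
      rw [← Nat.add_div_right _ hc]
      apply Nat.div_le_div_right
      rw [cnt_succ]
      split_ifs <;> omega
    omega

/-- The first time of a segment. -/
noncomputable def fst (c s : ℕ) : ℕ := sInf {t | s ≤ sg p c t}

theorem fst_eq {c t : ℕ} (h : sg p c (t + 1) ≠ sg p c t) : fst p c (sg p c (t + 1)) = t + 1 := by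
  have h0 : sg p c (t + 1) = sg p c t + 1 := (sg_succ p c t).resolve_left h
  apply le_antisymm
  · exact Nat.sInf_le (le_refl (sg p c (t + 1)))
  · by_contra hcon
    push Not at hcon
    have h1 : sg p c (t + 1) ≤ sg p c (fst p c (sg p c (t + 1))) :=
      Nat.sInf_mem (s := {t' | sg p c (t + 1) ≤ sg p c t'}) ⟨t + 1, le_refl (sg p c (t + 1))⟩
    have h2 : sg p c (fst p c (sg p c (t + 1))) ≤ sg p c t := sg_mono p c (by omega)
    omega

theorem card_seg {c : ℕ} (hc : 1 ≤ c) (j L : ℕ) :
    (((range L).filter fun t => (p t).counts = true).filter fun t => sg p c t = j).card ≤ c := by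
  have h1 : (((range L).filter fun t => (p t).counts = true).filter
      fun t => sg p c t = j).card ≤ (Finset.Ico (j * c) (j * c + c)).card := by
    apply Finset.card_le_card_of_injOn (cnt p)
    · intro t ht
      rw [mem_coe, mem_filter] at ht
      rw [mem_coe, mem_Ico]
      have h2 : cnt p t / c = j := ht.2
      have h3 := Nat.div_add_mod (cnt p t) c
      have h4 := Nat.mod_lt (cnt p t) hc
      rw [h2] at h3
      constructor
      · rw [mul_comm]; omega
      · rw [mul_comm]; omega
    · intro t ht t' ht' he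
      rw [mem_coe, mem_filter, mem_filter] at ht ht'
      have key : ∀ t t' : ℕ, (p t).counts = true → t < t' → cnt p t < cnt p t' := by
        intro t t' h5 h6
        have h7 := cnt_succ p t
        rw [if_pos h5] at h7
        have h8 := cnt_mono p (show t + 1 ≤ t' from h6)
        omega
      rcases lt_trichotomy t t' with h5 | h5 | h5
      · exact absurd he (key t t' ht.1.2 h5).ne
      · exact h5
      · exact absurd he.symm (key t' t ht'.1.2 h5).ne
  rwa [Nat.card_Ico, Nat.add_sub_cancel_left] at h1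

theorem card_counts (L : ℕ) : ((range L).filter fun t => (p t).counts = true).card = cnt p L :=
  (Nat.count_eq_card_filter_range _ _).symm

theorem counts_of_rd {t : ℕ} {x : ι} (h : (p t).rd = some x) : (p t).counts = true := by
  unfold Pce.counts
  rw [h]
  rfl

/-- The segments in which an entry is read. -/
noncomputable def segs (c L : ℕ) (x : ι) : Finset (Fin (cnt p L / c + 1)) :=
  open Classical in
  univ.filter fun j => ∃ t < L, (p t).rd = some x ∧ sg p c t = j.1

theorem mem_segs {c L : ℕ} {x : ι} {j : Fin (cnt p L / c + 1)} :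
    j ∈ segs p c L x ↔ ∃ t < L, (p t).rd = some x ∧ sg p c t = j.1 := by
  simp [segs]

theorem card_segs_le [DecidableEq ι] (c L : ℕ) (x : ι) : (segs p c L x).card ≤
    (((range L).filter fun t => (p t).counts = true).filter
      fun t => (p t).rd = some x).card := by
  calc (segs p c L x).card = ((segs p c L x).image Fin.val).card :=
        (Finset.card_image_of_injective _ Fin.val_injective).symm
    _ ≤ ((((range L).filter fun t => (p t).counts = true).filter
      fun t => (p t).rd = some x).image (sg p c)).card := by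
        apply card_le_card
        intro j hj
        obtain ⟨j', hj', rfl⟩ := mem_image.1 hj
        obtain ⟨t, h1, h2, h3⟩ := (mem_segs p).1 hj'
        refine mem_image.2 ⟨t, mem_filter.2 ⟨mem_filter.2 ⟨mem_range.2 h1, counts_of_rd p h2⟩, h2⟩,
          h3⟩
    _ ≤ _ := card_image_le

theorem sum_segs (c L : ℕ) (R : Finset ι) : ∑ x ∈ R, (segs p c L x).card ≤ cnt p L := by
  classical
  refine le_trans ?_ (card_counts p L).le
  calc ∑ x ∈ R, (segs p c L x).card ≤ ∑ x ∈ R,
        (((range L).filter fun t => (p t).counts = true).filter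
          fun t => (p t).rd = some x).card :=
        Finset.sum_le_sum fun x _ => card_segs_le p c L x
    _ = (R.biUnion fun x =>
        (((range L).filter fun t => (p t).counts = true).filter
          fun t => (p t).rd = some x)).card := by
        symm
        apply card_biUnion
        intro x _ x' _ hxx
        rw [Function.onFun_apply, Finset.disjoint_left]
        intro t ht ht'
        have h1 := (mem_filter.1 ht).2
        have h2 := (mem_filter.1 ht').2
        rw [h1] at h2
        exact hxx (Option.some.inj h2)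
    _ ≤ _ := by
        apply card_le_card
        intro t ht
        obtain ⟨x, -, hx⟩ := mem_biUnion.1 ht
        exact (mem_filter.1 hx).1

theorem card_seg_le {c : ℕ} (hc : 1 ≤ c) (L : ℕ) (G : Finset ι)
    (j : Fin (cnt p L / c + 1)) : (G.filter fun x => j ∈ segs p c L x).card ≤ c := by
  classical
  refine le_trans ?_ (card_seg p hc j.1 L)
  have h1 : (G.filter fun x => j ∈ segs p c L x).image some ⊆
      (((range L).filter fun t => (p t).counts = true).filter fun t => sg p c t = j.1).image
        fun t => (p t).rd := by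
    intro x' hx'
    obtain ⟨x, hx, rfl⟩ := mem_image.1 hx'
    obtain ⟨t, h1, h2, h3⟩ := (mem_segs p).1 (mem_filter.1 hx).2
    exact mem_image.2 ⟨t, mem_filter.2 ⟨mem_filter.2 ⟨mem_range.2 h1, counts_of_rd p h2⟩, h3⟩, h2⟩
  calc (G.filter fun x => j ∈ segs p c L x).card
      = ((G.filter fun x => j ∈ segs p c L x).image some).card :=
        (Finset.card_image_of_injective _ (Option.some_injective _)).symm
    _ ≤ _ := card_le_card h1
    _ ≤ _ := card_image_le

/-- **Two sides.** -/
theorem separate {r c L : ℕ} (R : Finset ι) (hr : 1 ≤ r) (hc : 1 ≤ c) (hcm : 8 * r * c ≤ R.card)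
    (hcnt : cnt p L ≤ r * R.card) : ∃ (J : ℕ → Prop) (A E : Finset ι), A ⊆ R ∧ E ⊆ R ∧
      R.card ≤ 2 ^ (4 * r + 2) * A.card ∧ R.card ≤ 2 ^ (4 * r + 2) * E.card ∧
      (∀ t < L, ∀ x ∈ A, (p t).rd = some x → J (sg p c t)) ∧
      ∀ t < L, ∀ x ∈ E, (p t).rd = some x → ¬ J (sg p c t) := by
  classical
  obtain ⟨m, hm⟩ : ∃ m, m = R.card := ⟨_, rfl⟩
  rw [← hm] at hcm hcnt ⊢
  obtain ⟨G, hG⟩ : ∃ G : Finset ι, G = R.filter fun x => (segs p c L x).card ≤ 2 * r :=
    ⟨_, rfl⟩
  have hGR : G ⊆ R := by rw [hG]; exact filter_subset _ _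
  have hGm : ∀ x ∈ G, (segs p c L x).card ≤ 2 * r := by
    intro x hx
    rw [hG, mem_filter] at hx
    exact hx.2
  have hm1 : 1 ≤ m := le_trans (Nat.mul_pos (by omega) hc) hcm
  -- most entries are read in few segments
  have hG2 : m ≤ 2 * G.card := by
    obtain ⟨N, hN⟩ : ∃ N, N = (R.filter fun x => ¬ (segs p c L x).card ≤ 2 * r).card := ⟨_, rfl⟩
    have h1 : N * (2 * r + 1) ≤ r * m := by
      calc N * (2 * r + 1) = ∑ _x ∈ R.filter (fun x => ¬ (segs p c L x).card ≤ 2 * r),
            (2 * r + 1) := by rw [hN, Finset.sum_const, smul_eq_mul]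
        _ ≤ ∑ x ∈ R.filter (fun x => ¬ (segs p c L x).card ≤ 2 * r), (segs p c L x).card := by
            apply Finset.sum_le_sum
            intro x hx
            have := (mem_filter.1 hx).2
            omega
        _ ≤ r * m := (sum_segs p c L _).trans hcnt
    have h2 : G.card + N = m := by
      rw [hG, hN, Finset.card_filter_add_card_filter_not, hm]
    have h3 : 2 * N ≤ m := by
      by_contra hcon
      have h5 : m + 1 ≤ 2 * N := by omega
      have h4 : r * (m + 1) ≤ r * (2 * N) := Nat.mul_le_mul_left _ h5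
      nlinarith
    omega
  have hG1 : 0 < G.card := by omega
  obtain ⟨J, hJ⟩ := Pool.Agent.Y631.Wc.sides (r := 2 * r) (w := c) (R := 2 * r * G.card) G G
    (segs p c L) hGm hGm (card_seg_le p hc L G)
    (by
      calc ∑ x ∈ G, (segs p c L x).card ≤ ∑ _x ∈ G, 2 * r := Finset.sum_le_sum hGm
        _ = 2 * r * G.card := by rw [Finset.sum_const, smul_eq_mul, mul_comm])
    (by
      calc 2 * (c * (2 * r * G.card)) = (4 * r * c) * G.card := by ring
        _ ≤ G.card * G.card := by
          apply Nat.mul_le_mul_right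
          have h1 : 8 * r * c = 2 * (4 * r * c) := by ring
          omega)
  obtain ⟨A, hA⟩ : ∃ A, A = G.filter fun x => segs p c L x ⊆ J := ⟨_, rfl⟩
  obtain ⟨E, hE⟩ : ∃ E, E = G.filter fun x => Disjoint (segs p c L x) J := ⟨_, rfl⟩
  rw [← hA, ← hE] at hJ
  have hAG : A ⊆ G := by rw [hA]; exact filter_subset _ _
  have hEG : E ⊆ G := by rw [hE]; exact filter_subset _ _
  have hAc : A.card ≤ G.card := card_le_card hAG
  have hEc : E.card ≤ G.card := card_le_card hEG
  have h4 : (4 : ℕ) ^ (2 * r) = 2 ^ (4 * r) := by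
    rw [show (4 : ℕ) = 2 ^ 2 from rfl, ← pow_mul]
    congr 1
    ring
  rw [h4] at hJ
  have hlt : ∀ t < L, sg p c t < cnt p L / c + 1 := fun t ht =>
    Nat.lt_succ_of_le (sg_mono p c ht.le)
  refine ⟨fun j => ∃ h : j < cnt p L / c + 1, (⟨j, h⟩ : Fin _) ∈ J, A, E, hAG.trans hGR,
    hEG.trans hGR, ?_, ?_, ?_, ?_⟩
  · have h6 : G.card ≤ 2 * (2 ^ (4 * r) * A.card) := by
      have h7 : G.card * G.card ≤ G.card * (2 * (2 ^ (4 * r) * A.card)) := by
        calc _ ≤ 2 * (2 ^ (4 * r) * (A.card * E.card)) := hJ
          _ ≤ 2 * (2 ^ (4 * r) * (A.card * G.card)) := by gcongr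
          _ = _ := by ring
      exact Nat.le_of_mul_le_mul_left h7 hG1
    calc m ≤ 2 * G.card := hG2
      _ ≤ 2 * (2 * (2 ^ (4 * r) * A.card)) := Nat.mul_le_mul_left _ h6
      _ = _ := by rw [pow_add]; ring
  · have h6 : G.card ≤ 2 * (2 ^ (4 * r) * E.card) := by
      have h7 : G.card * G.card ≤ G.card * (2 * (2 ^ (4 * r) * E.card)) := by
        calc _ ≤ 2 * (2 ^ (4 * r) * (A.card * E.card)) := hJ
          _ ≤ 2 * (2 ^ (4 * r) * (G.card * E.card)) := by gcongr
          _ = _ := by ring
      exact Nat.le_of_mul_le_mul_left h7 hG1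
    calc m ≤ 2 * G.card := hG2
      _ ≤ 2 * (2 * (2 ^ (4 * r) * E.card)) := Nat.mul_le_mul_left _ h6
      _ = _ := by rw [pow_add]; ring
  · intro t ht x hx hrd
    rw [hA, mem_filter] at hx
    exact ⟨hlt t ht, hx.2 ((mem_segs p).2 ⟨t, ht, hrd, rfl⟩)⟩
  · rintro t ht x hx hrd ⟨h, hj⟩
    rw [hE, mem_filter] at hx
    exact Finset.disjoint_left.1 hx.2 ((mem_segs p).2 ⟨t, ht, hrd, rfl⟩) hj

/-- Agreement of the numbers which are read. -/
theorem val_eq (q : Pce ι w) (a b : ι → ℝ) (h : ∀ i, q.rd = some i → a i = b i) :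
    q.val a = q.val b := by
  unfold Pce.val
  rcases hq : q.rd with _ | i
  · rfl
  · exact h i hq

/-- Mixing two inputs with the same contents of the registers at the ends of the segments. -/
theorem mix {L c : ℕ} (a b h : ι → ℝ) (J : ℕ → Prop) (ha : Ok p L 0 a) (hb : Ok p L 0 b)
    (hab : ∀ s, 1 ≤ s → s ≤ cnt p L / c → st p a 0 (fst p c s) = st p b 0 (fst p c s))
    (h1 : ∀ t < L, J (sg p c t) → (p t).val h = (p t).val a)
    (h2 : ∀ t < L, ¬ J (sg p c t) → (p t).val h = (p t).val b) : Ok p L 0 h := by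
  classical
  obtain ⟨z, hz⟩ : ∃ z : ℕ → ι → ℝ, z = fun t => if J (sg p c t) then a else b :=
    ⟨_, rfl⟩
  have hval : ∀ t < L, (p t).val h = (p t).val (z t) := by
    intro t ht
    rw [hz]
    show _ = (p t).val (if J (sg p c t) then a else b)
    split_ifs with hJ
    · exact h1 t ht hJ
    · exact h2 t ht hJ
  have hst : ∀ t, t < L → st p h 0 t = st p (z t) 0 t := by
    intro t
    induction t with
    | zero => exact fun _ => rfl
    | succ t ih =>
      intro ht
      have h3 : st p h 0 (t + 1) = st p (z t) 0 (t + 1) := by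
        show (p t).g (_, _) = (p t).g (_, _)
        rw [ih (by omega), hval t (by omega)]
      rw [h3]
      by_cases hsg : sg p c (t + 1) = sg p c t
      · rw [hz]
        simp only [hsg]
      · have h4 := sg_succ p c t
        have h5 := hab (sg p c (t + 1)) (by omega) (sg_mono p c ht.le)
        rw [fst_eq p hsg] at h5
        rw [hz]
        show st p (if J (sg p c t) then a else b) 0 (t + 1) =
          st p (if J (sg p c (t + 1)) then a else b) 0 (t + 1)
        split_ifs
        · rfl
        · exact h5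
        · exact h5.symm
        · rfl
  refine hybrid p L 0 h z hval hst (fun t _ => ?_)
  rw [hz]
  show Ok p L 0 (if J (sg p c t) then a else b)
  split_ifs
  · exact ha
  · exact hb

/-- A change of an entry which is not read. -/
theorem ok_of_not_read {L : ℕ} (a h : ι → ℝ) (x : ι) (ha : Ok p L 0 a)
    (hx : ∀ t < L, (p t).rd ≠ some x) (hh : ∀ i, i ≠ x → h i = a i) : Ok p L 0 h := by
  have hval : ∀ t < L, (p t).val h = (p t).val a := by
    intro t ht
    apply val_eq
    intro i hi
    apply hh
    rintro rfl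
    exact hx t ht hi
  refine hybrid p L 0 _ (fun _ => a) hval (fun t ht => ?_) (fun _ _ => ha)
  have key : ∀ t, t ≤ L → st p h 0 t = st p a 0 t := by
    intro t
    induction t with
    | zero => exact fun _ => rfl
    | succ t ih =>
      intro ht
      show (p t).g (_, _) = (p t).g (_, _)
      rw [ih (by omega), hval t (by omega)]
  exact key t ht.le

end Pool.Agent.Q230.AD
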