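import Pool.Agent.Q230.AD.Seg
import Pool.Agent.Q230.AD.Lp

set_option autoImplicit false

/-!
# Programs with few reads
-/

open Finset Matrix

namespace Pool.Agent.Q230.AD

section

variable {ι β : Type} {w : ℕ} (q : β → ℕ → Pce ι w) (L : ℕ)

/-- The instruction at the time `t` of the program number `s`. -/
def unI (s : β) (t : ℕ) : Instr (Option (β × ℕ)) ι w where
  src := some (s, t)
  tgt := some (s, t + 1)
  read := (q s t).rd
  dom := (q s t).F
  upd := (q s t).g

/-- The first instruction. -/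
def un0 (s : β) : Instr (Option (β × ℕ)) ι w where
  src := none
  tgt := some (s, 0)
  read := none
  dom := Set.univ
  upd := Prod.fst

/-- First the number of a straight-line program is chosen, and then it is executed. -/
def un [Countable β] : Prog ι w where
  Q := Option (β × ℕ)
  start := none
  acc := {a | ∃ s, a = some (s, L)}
  instrs := {I | ∃ s, I = un0 s} ∪ {I | ∃ s, ∃ t < L, I = unI q s t}
  countable := by
    apply Set.Countable.union
    · apply Set.Countable.mono (s₂ := Set.range un0)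
      · rintro I ⟨t, rfl⟩
        exact ⟨t, rfl⟩
      · exact Set.countable_range _
    · apply Set.Countable.mono (s₂ := Set.range fun a : β × ℕ => unI q a.1 a.2)
      · rintro I ⟨s, t, -, rfl⟩
        exact ⟨(s, t), rfl⟩
      · exact Set.countable_range _

theorem un_run [Countable β] (b : ι → ℝ) (s : β) (n : ℕ) : ∀ (t : ℕ) (y : Fin w → ℝ)
    (l : List (Instr (Option (β × ℕ)) ι w)), t + n = L →
    ((un q L).RunFrom b (some (s, t)) y l ↔
      l = (List.range n).map (fun i => unI q s (t + i)) ∧ Ok (fun i => q s (t + i)) n y b) := by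
  induction n with
  | zero =>
    intro t y l ht
    rw [add_zero] at ht
    subst ht
    rcases l with _ | ⟨I, l⟩
    · simp only [List.range_zero, List.map_nil, true_and]
      exact ⟨fun _ s hs => absurd hs (Nat.not_lt_zero _), fun _ => ⟨s, rfl⟩⟩
    · constructor
      · rintro ⟨⟨s', rfl⟩ | ⟨s', t', ht', rfl⟩, h1, -⟩
        · have h2 : (none : Option (β × ℕ)) = some (s, t) := h1
          simp at h2
        · have h2 : (some (s', t') : Option (β × ℕ)) = some (s, t) := h1
          simp only [Option.some.injEq, Prod.mk.injEq] at h2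
          omega
      · rintro ⟨h, -⟩
        simp at h
  | succ n ih =>
    intro t y l ht
    rw [ok_succ]
    have e1 : (List.range (n + 1)).map (fun i => unI q s (t + i)) =
        unI q s t :: (List.range n).map (fun i => unI q s (t + 1 + i)) := by
      rw [List.range_succ_eq_map, List.map_cons, List.map_map, add_zero]
      congr 1
      apply List.map_congr_left
      intro i _
      show unI q s (t + (i + 1)) = _
      rw [show t + (i + 1) = t + 1 + i by ring]
    have e2 : (fun i => q s (t + (i + 1))) = fun i => q s (t + 1 + i) := by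
      funext i
      rw [show t + (i + 1) = t + 1 + i by ring]
    rw [e1, e2]
    rcases l with _ | ⟨I, l⟩
    · constructor
      · rintro ⟨s', h⟩
        simp only [Option.some.injEq, Prod.mk.injEq] at h
        omega
      · rintro ⟨h, -⟩
        simp at h
    · constructor
      · rintro ⟨⟨s', rfl⟩ | ⟨s', t', ht', rfl⟩, h1, h2, h3⟩
        · have h4 : (none : Option (β × ℕ)) = some (s, t) := h1
          simp at h4
        · have h4 : (some (s', t') : Option (β × ℕ)) = some (s, t) := h1
          simp only [Option.some.injEq, Prod.mk.injEq] at h4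
          obtain ⟨rfl, rfl⟩ := h4
          obtain ⟨h5, h6⟩ := (ih (t' + 1) _ l (by omega)).1 h3
          exact ⟨by rw [h5], h2, h6⟩
      · rintro ⟨h1, h2, h3⟩
        obtain ⟨rfl, rfl⟩ := List.cons.inj h1
        exact ⟨Or.inr ⟨s, t, by omega, rfl⟩, rfl, h2, (ih (t + 1) _ _ (by omega)).2 ⟨rfl, h3⟩⟩

theorem reads_range (s : β) :
    ((List.range L).map fun i => unI q s i).countP (fun I => I.read.isSome) = cnt (q s) L := by
  induction L with
  | zero => rfl
  | succ L ih =>
    rw [List.range_succ, List.map_append, cnt, Nat.count_succ, List.countP_append, ih,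
      List.map_singleton, List.countP_singleton]
    rfl

theorem un_isRun [Countable β] (b : ι → ℝ) (l : List (Instr (Option (β × ℕ)) ι w)) :
    (un q L).IsRun b l ↔ ∃ s, Ok (q s) L 0 b ∧
      l = un0 s :: (List.range L).map (fun i => unI q s i) := by
  have h1 := fun s l => un_run q L b s L 0 0 l (zero_add L)
  simp only [zero_add] at h1
  rcases l with _ | ⟨I, l⟩
  · constructor
    · rintro ⟨s, h⟩
      simp [un] at h
    · rintro ⟨s, -, h⟩
      simp at h
  · constructor
    · rintro ⟨⟨s, rfl⟩ | ⟨s, t, ht, rfl⟩, h2, h3, h4⟩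
      · obtain ⟨h5, h6⟩ := (h1 s l).1 h4
        exact ⟨s, h6, by rw [h5]⟩
      · have h5 : (some (s, t) : Option (β × ℕ)) = none := h2
        simp at h5
    · rintro ⟨s, h2, h3⟩
      obtain ⟨rfl, rfl⟩ := List.cons.inj h3
      exact ⟨Or.inl ⟨s, rfl⟩, rfl, trivial, (h1 s _).2 ⟨rfl, h2⟩⟩

theorem un_accepts [Countable β] (b : ι → ℝ) :
    (∃ l, (un q L).IsRun b l) ↔ ∃ s, Ok (q s) L 0 b := by
  constructor
  · rintro ⟨l, hl⟩
    obtain ⟨s, hs, -⟩ := (un_isRun q L b l).1 hl
    exact ⟨s, hs⟩
  · rintro ⟨s, hs⟩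
    exact ⟨_, (un_isRun q L b _).2 ⟨s, hs, rfl⟩⟩

theorem un_reads [Countable β] (b : ι → ℝ) (l : List (Instr (Option (β × ℕ)) ι w))
    (hl : (un q L).IsRun b l) : ∃ s, reads l = cnt (q s) L := by
  obtain ⟨s, -, rfl⟩ := (un_isRun q L b l).1 hl
  refine ⟨s, ?_⟩
  unfold reads
  rw [List.countP_cons, reads_range]
  rfl

end

section

variable {ι : Type} (n N w : ℕ) (s : Fin n → ι) (c : Fin N → ι) (m : ℕ → Fin n → ℝ)

/-- The instructions: `w` sums are computed at the same time. -/
noncomputable def bl (t : ℕ) : Pce ι w :=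
  if h : t % (n + w) < n then
    ⟨some (s ⟨t % (n + w), h⟩), Set.univ, fun u a => u.1 a +
      m (t / (n + w) * w + a.1) ⟨t % (n + w), h⟩ * u.2⟩
  else
    ⟨if h' : t / (n + w) * w + (t % (n + w) - n) < N then some (c ⟨_, h'⟩) else none,
      {u | ∀ a : Fin w, a.1 = t % (n + w) - n → t / (n + w) * w + a.1 < N → u.2 ≤ u.1 a},
      if t % (n + w) + 1 = n + w then fun _ => 0 else Prod.fst⟩

theorem bl_closed (t : ℕ) : IsClosed (bl n N w s c m t).F := by
  unfold bl
  split_ifs with h h' h''
  · exact isClosed_univ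
  all_goals
    simp only [Set.ofPred_forall]
    refine isClosed_iInter fun a => isClosed_iInter fun _ => isClosed_iInter fun _ => ?_
    exact isClosed_le continuous_snd (by fun_prop)

theorem bl_affine (t : ℕ) :
    ∃ f : ((Fin w → ℝ) × ℝ) →ᵃ[ℝ] (Fin w → ℝ), (bl n N w s c m t).g = f := by
  unfold bl
  split_ifs with h h' h''
  · refine ⟨(LinearMap.pi fun a => (LinearMap.proj a).comp (LinearMap.fst ℝ _ _) +
      m (t / (n + w) * w + a.1) ⟨t % (n + w), h⟩ •
        LinearMap.snd ℝ (Fin w → ℝ) ℝ).toAffineMap, ?_⟩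
    funext u a
    simp
  all_goals first
    | exact ⟨0, rfl⟩
    | exact ⟨(LinearMap.fst ℝ _ _).toAffineMap, rfl⟩

theorem step_mod {M t : ℕ} (hM : 0 < M) :
    (t % M + 1 < M → (t + 1) % M = t % M + 1 ∧ (t + 1) / M = t / M) ∧
    (t % M + 1 = M → (t + 1) % M = 0 ∧ (t + 1) / M = t / M + 1) := by
  have hdm := Nat.div_add_mod t M
  have h0 : t + 1 = M * (t / M) + (t % M + 1) := by omega
  constructor
  · intro h
    constructor
    · rw [h0, Nat.mul_add_mod, Nat.mod_eq_of_lt h]
    · rw [h0, Nat.mul_add_div hM, Nat.div_eq_of_lt h, add_zero]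
  · intro h
    rw [h] at h0
    have h1 : t + 1 = M * (t / M + 1) := by rw [h0]; ring
    rw [h1]
    exact ⟨Nat.mul_mod_right _ _, Nat.mul_div_cancel_left _ hM⟩

/-- The contents of the registers. -/
theorem bl_st (hw : 1 ≤ w) (b : ι → ℝ) (t : ℕ) (a : Fin w) :
    st (bl n N w s c m) b 0 t a = ∑ i : Fin n, if i.1 < t % (n + w) then
      m (t / (n + w) * w + a.1) i * b (s i) else 0 := by
  have hmw : 0 < n + w := by omega
  induction t generalizing a with
  | zero => simp [st]
  | succ t ih =>
    have hlt := Nat.mod_lt t hmw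
    obtain ⟨h1, h2⟩ := step_mod (t := t) hmw
    show (bl n N w s c m t).g (st (bl n N w s c m) b 0 t, (bl n N w s c m t).val b) a = _
    by_cases hi : t % (n + w) < n
    · obtain ⟨h3, h4⟩ := h1 (by omega)
      rw [h3, h4]
      have h5 : bl n N w s c m t = ⟨some (s ⟨t % (n + w), hi⟩), Set.univ, fun u a => u.1 a +
        m (t / (n + w) * w + a.1) ⟨t % (n + w), hi⟩ * u.2⟩ := dif_pos hi
      have h6 : (bl n N w s c m t).g (st (bl n N w s c m) b 0 t, (bl n N w s c m t).val b) a =
          st (bl n N w s c m) b 0 t a + m (t / (n + w) * w + a.1) ⟨t % (n + w), hi⟩ *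
            b (s ⟨t % (n + w), hi⟩) := by
        rw [h5]
        rfl
      rw [h6, ih]
      have h7 : ∀ i : Fin n, (if i.1 < t % (n + w) + 1 then
          m (t / (n + w) * w + a.1) i * b (s i) else 0) =
          (if i.1 < t % (n + w) then m (t / (n + w) * w + a.1) i * b (s i) else 0) +
          if i = ⟨t % (n + w), hi⟩ then m (t / (n + w) * w + a.1) i * b (s i) else 0 := by
        intro i
        by_cases h8 : i.1 < t % (n + w)
        · rw [if_pos h8, if_pos (by omega), if_neg (by rw [Fin.ext_iff]; exact h8.ne), add_zero]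
        · by_cases h9 : i = ⟨t % (n + w), hi⟩
          · rw [if_neg h8, if_pos h9, if_pos (by
              rw [Fin.ext_iff] at h9
              exact h9.trans_lt (Nat.lt_succ_self _)), zero_add]
          · rw [if_neg h8, if_neg h9, if_neg, add_zero]
            rw [Fin.ext_iff] at h9
            have h10 : i.1 ≠ t % (n + w) := h9
            omega
      rw [Finset.sum_congr rfl fun i _ => h7 i, Finset.sum_add_distrib, Finset.sum_ite_eq' univ,
        if_pos (mem_univ _)]
    · by_cases hlast : t % (n + w) + 1 = n + w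
      · obtain ⟨h3, h4⟩ := h2 hlast
        rw [h3, h4]
        have h5 : (bl n N w s c m t).g = fun _ => 0 := by
          unfold bl
          rw [dif_neg hi, if_pos hlast]
        rw [h5]
        simp
      · obtain ⟨h3, h4⟩ := h1 (by omega)
        rw [h3, h4]
        have h5 : (bl n N w s c m t).g = Prod.fst := by
          unfold bl
          rw [dif_neg hi, if_neg hlast]
        rw [h5]
        show st (bl n N w s c m) b 0 t a = _
        rw [ih]
        refine Finset.sum_congr rfl fun i _ => ?_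
        have := i.2
        rw [if_pos (by omega), if_pos (by omega)]

/-- The number of the blocks. -/
def nb : ℕ := (N + w - 1) / w

theorem bl_ok (hw : 1 ≤ w) (b : ι → ℝ) :
    Ok (bl n N w s c m) (nb N w * (n + w)) 0 b ↔
      ∀ j : Fin N, b (c j) ≤ ∑ i, m j.1 i * b (s i) := by
  have hmw : 0 < n + w := by omega
  have hval : ∀ (t : ℕ) (hi : ¬ t % (n + w) < n)
      (h' : t / (n + w) * w + (t % (n + w) - n) < N),
      (bl n N w s c m t).val b = b (c ⟨_, h'⟩) := by
    intro t hi h'
    unfold bl Pce.val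
    rw [dif_neg hi]
    simp only [dif_pos h']
    rfl
  have hst : ∀ (t : ℕ) (_ : ¬ t % (n + w) < n) (a : Fin w), st (bl n N w s c m) b 0 t a =
      ∑ i, m (t / (n + w) * w + a.1) i * b (s i) := by
    intro t hi a
    rw [bl_st n N w s c m hw]
    refine Finset.sum_congr rfl fun i _ => ?_
    have := i.2
    rw [if_pos (by omega)]
  constructor
  · intro h j
    -- the time of the comparison
    obtain ⟨Q, hQ⟩ : ∃ Q, Q = j.1 / w := ⟨_, rfl⟩
    obtain ⟨a, ha⟩ : ∃ a, a = j.1 % w := ⟨_, rfl⟩
    have haw : a < w := by rw [ha]; exact Nat.mod_lt _ hw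
    have hj : Q * w + a = j.1 := by
      rw [hQ, ha, mul_comm]
      exact Nat.div_add_mod _ _
    have hmod : (Q * (n + w) + (n + a)) % (n + w) = n + a := by
      rw [mul_comm, Nat.mul_add_mod, Nat.mod_eq_of_lt (by omega)]
    have hdiv : (Q * (n + w) + (n + a)) / (n + w) = Q := by
      rw [mul_comm, Nat.mul_add_div hmw, Nat.div_eq_of_lt (by omega), add_zero]
    have hQn : Q < nb N w := by
      rw [nb, hQ]
      have h2 : (j.1 + w) / w ≤ (N + w - 1) / w := Nat.div_le_div_right (by have := j.2; omega)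
      rw [Nat.add_div_right _ hw] at h2
      omega
    have hlt : Q * (n + w) + (n + a) < nb N w * (n + w) := by
      calc Q * (n + w) + (n + a) < Q * (n + w) + (n + w) := by omega
        _ = (Q + 1) * (n + w) := by ring
        _ ≤ nb N w * (n + w) := Nat.mul_le_mul_right _ hQn
    have h1 := h _ hlt
    have hi : ¬ (Q * (n + w) + (n + a)) % (n + w) < n := by rw [hmod]; omega
    have hj' : (Q * (n + w) + (n + a)) / (n + w) * w +
        ((Q * (n + w) + (n + a)) % (n + w) - n) = j.1 := by
      rw [hmod, hdiv]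
      omega
    have hjm : (Q * (n + w) + (n + a)) / (n + w) * w +
        ((Q * (n + w) + (n + a)) % (n + w) - n) < N := by
      rw [hj']
      exact j.2
    have h2 : (bl n N w s c m (Q * (n + w) + (n + a))).F =
        {u | ∀ a' : Fin w, a'.1 = (Q * (n + w) + (n + a)) % (n + w) - n →
          (Q * (n + w) + (n + a)) / (n + w) * w + a'.1 < N → u.2 ≤ u.1 a'} := by
      unfold bl
      rw [dif_neg hi]
    rw [h2] at h1
    have h3 : (bl n N w s c m (Q * (n + w) + (n + a))).val b ≤
        st (bl n N w s c m) b 0 (Q * (n + w) + (n + a)) ⟨a, haw⟩ :=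
      h1 ⟨a, haw⟩ (by rw [hmod]; simp) (by rw [hdiv, hj]; exact j.2)
    have h4 : (⟨_, hjm⟩ : Fin N) = j := Fin.ext hj'
    rw [hst _ hi, hval _ hi hjm, h4] at h3
    simp only [hdiv, hj] at h3
    exact h3
  · intro h t ht
    by_cases hi : t % (n + w) < n
    · have h2 : (bl n N w s c m t).F = Set.univ := by
        unfold bl
        rw [dif_pos hi]
      rw [h2]
      trivial
    · have h2 : (bl n N w s c m t).F = {u | ∀ a' : Fin w, a'.1 = t % (n + w) - n →
          t / (n + w) * w + a'.1 < N → u.2 ≤ u.1 a'} := by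
        unfold bl
        rw [dif_neg hi]
      rw [h2]
      intro a ha hjm
      rw [ha] at hjm
      have h3 := h ⟨_, hjm⟩
      show (bl n N w s c m t).val b ≤ st (bl n N w s c m) b 0 t a
      rw [hst t hi, hval t hi hjm, ha]
      exact h3

theorem bl_cnt (hw : 1 ≤ w) (Q : ℕ) :
    cnt (bl n N w s c m) (Q * (n + w)) = Q * n + min (Q * w) N := by
  have hmw : 0 < n + w := by omega
  have key : ∀ t, (bl n N w s c m t).counts =
      decide (t % (n + w) < n ∨ t / (n + w) * w + (t % (n + w) - n) < N) := by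
    intro t
    unfold Pce.counts bl
    by_cases hi : t % (n + w) < n
    · rw [dif_pos hi]
      simp [hi]
    · rw [dif_neg hi]
      by_cases h' : t / (n + w) * w + (t % (n + w) - n) < N
      · simp [h']
      · simp [h', hi]
  have h1 : ∀ L, cnt (bl n N w s c m) L = Nat.count (fun t => t % (n + w) < n ∨
      t / (n + w) * w + (t % (n + w) - n) < N) L := by
    intro L
    unfold cnt
    congr 1
    funext t
    rw [key t]
    simp
  rw [h1]
  clear h1 key
  induction Q with
  | zero => simp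
  | succ Q ih =>
    rw [add_mul, one_mul, Nat.count_add, ih, Nat.count_eq_card_filter_range]
    have h2 : (range (n + w)).filter (fun k => (Q * (n + w) + k) % (n + w) < n ∨
        (Q * (n + w) + k) / (n + w) * w + ((Q * (n + w) + k) % (n + w) - n) < N) =
        range (n + (min (Q * w + w) N - min (Q * w) N)) := by
      ext k
      rw [mem_filter, mem_range, mem_range]
      constructor
      · rintro ⟨h3, h4⟩
        rw [mul_comm Q, Nat.mul_add_mod, Nat.mul_add_div hmw, Nat.mod_eq_of_lt h3,
          Nat.div_eq_of_lt h3, add_zero] at h4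
        omega
      · intro h3
        have h4 : k < n + w := by omega
        refine ⟨h4, ?_⟩
        rw [mul_comm Q, Nat.mul_add_mod, Nat.mul_add_div hmw, Nat.mod_eq_of_lt h4,
          Nat.div_eq_of_lt h4, add_zero]
        omega
    rw [h2, card_range, add_mul, one_mul, add_mul, one_mul]
    omega

end

/-- **Vertices.** -/
theorem exists_vertex {p n : ℕ} {A : Matrix (Fin p) (Fin n) ℝ} (hg : GeneralPosition A)
    (hnp : n ≤ p) (b : Fin p → ℝ) (hx : ∃ x, b ≤ A *ᵥ x) :
    ∃ s : Fin n → Fin p, Function.Injective s ∧ ∃ x, b ≤ A *ᵥ x ∧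
      ∀ a, (A *ᵥ x) (s a) = b (s a) := by
  classical
  have key : ∀ k : ℕ, k ≤ n → ∃ x, b ≤ A *ᵥ x ∧
      k ≤ (univ.filter fun i => (A *ᵥ x) i = b i).card := by
    intro k
    induction k with
    | zero =>
      obtain ⟨x, hx⟩ := hx
      exact fun _ => ⟨x, hx, Nat.zero_le _⟩
    | succ k ih =>
      intro hk
      obtain ⟨x, hx, hxk⟩ := ih (by omega)
      obtain ⟨T, hT⟩ : ∃ T, T = univ.filter fun i => (A *ᵥ x) i = b i := ⟨_, rfl⟩
      rw [← hT] at hxk
      by_cases hkT : k + 1 ≤ T.card
      · exact ⟨x, hx, by rw [← hT]; exact hkT⟩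
      have hTk : T.card = k := by omega
      have hTm : ∀ i, i ∈ T ↔ (A *ᵥ x) i = b i := by
        intro i
        rw [hT, mem_filter]
        exact ⟨fun h => h.2, fun h => ⟨mem_univ _, h⟩⟩
      obtain ⟨i₀, hi₀⟩ : ∃ i₀, i₀ ∉ T := by
        by_contra hcon
        push Not at hcon
        have h1 : T = univ := eq_univ_of_forall hcon
        rw [h1, card_univ, Fintype.card_fin] at hTk
        omega
      obtain ⟨χ, hχ, -⟩ := exists_chi hg hnp (insert i₀ T) (by
        rw [card_insert_of_notMem hi₀]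
        omega)
      obtain ⟨d, hd⟩ : ∃ d, d = χ (-Pi.single i₀ 1) := ⟨_, rfl⟩
      have hd0 : (A *ᵥ d) i₀ = -1 := by
        rw [hd, hχ _ _ (mem_insert_self _ _), Pi.neg_apply, Pi.single_eq_same]
      have hdT : ∀ i ∈ T, (A *ᵥ d) i = 0 := by
        intro i hi
        rw [hd, hχ _ _ (mem_insert_of_mem hi), Pi.neg_apply, Pi.single_eq_of_ne, neg_zero]
        rintro rfl
        exact hi₀ hi
      -- the first new tight inequality
      obtain ⟨C, hC⟩ : ∃ C, C = univ.filter fun i => (A *ᵥ d) i < 0 := ⟨_, rfl⟩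
      have hCm : ∀ i, i ∈ C ↔ (A *ᵥ d) i < 0 := by
        intro i
        rw [hC, mem_filter]
        exact ⟨fun h => h.2, fun h => ⟨mem_univ _, h⟩⟩
      obtain ⟨i₁, hi₁, hmin⟩ := Finset.exists_min_image C
        (fun i => ((A *ᵥ x) i - b i) / (-(A *ᵥ d) i)) ⟨i₀, (hCm _).2 (by rw [hd0]; norm_num)⟩
      obtain ⟨t, ht⟩ : ∃ t, t = ((A *ᵥ x) i₁ - b i₁) / (-(A *ᵥ d) i₁) := ⟨_, rfl⟩
      have hd1 : (A *ᵥ d) i₁ < 0 := (hCm _).1 hi₁
      have ht0 : 0 ≤ t := by
        rw [ht]
        apply div_nonneg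
        · have := hx i₁
          linarith
        · linarith
      have hAx : ∀ i, (A *ᵥ (x + t • d)) i = (A *ᵥ x) i + t * (A *ᵥ d) i := by
        intro i
        rw [mulVec_add, mulVec_smul]
        rfl
      refine ⟨x + t • d, fun i => ?_, ?_⟩
      · rw [hAx]
        by_cases hi : (A *ᵥ d) i < 0
        · have h1 := hmin i ((hCm i).2 hi)
          rw [← ht, le_div_iff₀ (by linarith)] at h1
          linarith
        · push Not at hi
          have h1 := hx i
          have h2 : 0 ≤ t * (A *ᵥ d) i := mul_nonneg ht0 hi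
          linarith
      · have h1 : insert i₁ T ⊆ univ.filter fun i => (A *ᵥ (x + t • d)) i = b i := by
          intro i hi
          rw [mem_filter]
          refine ⟨mem_univ _, ?_⟩
          rw [hAx]
          rcases mem_insert.1 hi with rfl | hi
          · have h2 : t * (-(A *ᵥ d) i) = (A *ᵥ x) i - b i := by
              rw [ht]
              exact div_mul_cancel₀ _ (by linarith)
            linarith
          · rw [hdT i hi, mul_zero, add_zero]
            exact (hTm i).1 hi
        have h2 : i₁ ∉ T := by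
          intro h3
          rw [hdT _ h3] at hd1
          exact lt_irrefl _ hd1
        have h3 := card_le_card h1
        rw [card_insert_of_notMem h2] at h3
        omega
  obtain ⟨x, hx, hxn⟩ := key n le_rfl
  obtain ⟨B, hB, hBc⟩ := Finset.exists_subset_card_eq hxn
  exact ⟨B.orderEmbOfFin hBc, (B.orderEmbOfFin hBc).injective, x, hx, fun a =>
    (mem_filter.1 (hB (B.orderEmbOfFin_mem hBc a))).2⟩

/-- **The program.** -/
theorem exists_program {p n w : ℕ} (A : Matrix (Fin p) (Fin n) ℝ) (hg : GeneralPosition A)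
    (hnp : n ≤ p) (hw : 1 ≤ w) : ∃ P : Prog (Fin p) w, P.IsAffine ∧
    (∀ b, (∃ l, P.IsRun b l) ↔ ∃ x, b ≤ A *ᵥ x) ∧
    ∀ b l, P.IsRun b l → reads l ≤ n * ((p - n + w - 1) / w) + (p - n) := by
  classical
  -- the rows outside of a basis
  have hc : ∀ s : {s : Fin n → Fin p // Function.Injective s}, ∃ c : Fin (p - n) → Fin p,
      ∀ i, (∃ a, s.1 a = i) ∨ ∃ j, c j = i := by
    intro s
    have h1 : (univ.image s.1)ᶜ.card = p - n := by
      rw [card_compl, Finset.card_image_of_injective _ s.2, card_univ, Fintype.card_fin,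
        Fintype.card_fin]
    refine ⟨(univ.image s.1)ᶜ.orderEmbOfFin h1, fun i => ?_⟩
    by_cases hi : i ∈ univ.image s.1
    · obtain ⟨a, -, ha⟩ := mem_image.1 hi
      exact Or.inl ⟨a, ha⟩
    · right
      have h2 := Finset.range_orderEmbOfFin _ h1
      have h3 : i ∈ Set.range ((univ.image s.1)ᶜ.orderEmbOfFin h1) := by
        rw [h2]
        exact mem_compl.2 hi
      exact h3
  choose c hc using hc
  obtain ⟨M, hM⟩ : ∃ M : {s : Fin n → Fin p // Function.Injective s} → Matrix (Fin n) (Fin n) ℝ,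
    M = fun s => A.submatrix s.1 id := ⟨_, rfl⟩
  have hdet : ∀ s, IsUnit (M s).det := by
    intro s
    rw [hM]
    exact (hg s.1 s.2).isUnit
  obtain ⟨m, hm⟩ : ∃ m : {s : Fin n → Fin p // Function.Injective s} → ℕ → Fin n → ℝ,
    m = fun s j i => if h : j < p - n then ((A.submatrix (c s) id) * (M s)⁻¹) ⟨j, h⟩ i else 0 :=
    ⟨_, rfl⟩
  have hsum : ∀ s (b : Fin p → ℝ) (j : Fin (p - n)), ∑ i, m s j.1 i * b (s.1 i) =
      (A *ᵥ ((M s)⁻¹ *ᵥ fun i => b (s.1 i))) (c s j) := by
    intro s b j
    have h1 : (A *ᵥ ((M s)⁻¹ *ᵥ fun i => b (s.1 i))) (c s j) =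
        ((A.submatrix (c s) id) *ᵥ ((M s)⁻¹ *ᵥ fun i => b (s.1 i))) j := rfl
    rw [h1, mulVec_mulVec]
    refine Finset.sum_congr rfl fun i _ => ?_
    rw [hm]
    simp only [dif_pos j.2]
  refine ⟨un (fun s => bl n (p - n) w s.1 (c s) (m s)) (nb (p - n) w * (n + w)), ?_, ?_, ?_⟩
  · rintro I (⟨s, rfl⟩ | ⟨s, t, -, rfl⟩)
    · exact ⟨⟨fun _ => Set.univ, fun _ => isClosed_univ, (Set.iUnion_const _).symm⟩,
        (LinearMap.fst ℝ _ _).toAffineMap, fun x _ => rfl⟩
    · refine ⟨⟨fun _ => (bl n (p - n) w s.1 (c s) (m s) t).F, fun _ => bl_closed _ _ _ _ _ _ t,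
        (Set.iUnion_const _).symm⟩, ?_⟩
      obtain ⟨f, hf⟩ := bl_affine n (p - n) w s.1 (c s) (m s) t
      refine ⟨f, fun x _ => ?_⟩
      show (bl n (p - n) w s.1 (c s) (m s) t).g x = f x
      rw [hf]
  · intro b
    refine (un_accepts _ _ b).trans ?_
    constructor
    · rintro ⟨s, hs⟩
      rw [bl_ok n (p - n) w s.1 (c s) (m s) hw] at hs
      refine ⟨(M s)⁻¹ *ᵥ fun i => b (s.1 i), fun i => ?_⟩
      rcases hc s i with ⟨a, rfl⟩ | ⟨j, rfl⟩
      · have h1 : (A *ᵥ ((M s)⁻¹ *ᵥ fun i => b (s.1 i))) (s.1 a) =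
            (M s *ᵥ ((M s)⁻¹ *ᵥ fun i => b (s.1 i))) a := by
          rw [hM]
          rfl
        rw [h1, mulVec_mulVec, mul_nonsing_inv _ (hdet s), one_mulVec]
      · rw [← hsum]
        exact hs j
    · intro hx
      obtain ⟨s, hs, x, hx, hxs⟩ := exists_vertex hg hnp b hx
      refine ⟨⟨s, hs⟩, ?_⟩
      rw [bl_ok n (p - n) w s (c ⟨s, hs⟩) (m ⟨s, hs⟩) hw]
      intro j
      rw [hsum ⟨s, hs⟩]
      have h1 : (M ⟨s, hs⟩)⁻¹ *ᵥ (fun i => b (s i)) = x := by
        have h2 : (fun i => b (s i)) = M ⟨s, hs⟩ *ᵥ x := by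
          funext i
          rw [← hxs, hM]
          rfl
        rw [h2, mulVec_mulVec, nonsing_inv_mul _ (hdet _), one_mulVec]
      rw [h1]
      exact hx _
  · intro b l hl
    obtain ⟨s, hs⟩ := un_reads _ _ b l hl
    refine hs.le.trans ?_
    rw [bl_cnt _ _ _ _ _ _ hw]
    show nb (p - n) w * n + min _ _ ≤ n * nb (p - n) w + (p - n)
    rw [mul_comm n]
    exact Nat.add_le_add_left (min_le_right _ _) _

end Pool.Agent.Q230.AD
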